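import Pool.Agent.Lib.MP_6d95fe_co.H4Del6

/-! Frattini type lemmas, the dimension of a commutative group algebra, and commutation in
discrete groups. -/

namespace Pool.Agent.Lib.MP_6d95fe_co.H35

open Pool.Agent.Lib.MP_6d95fe_co.Del

open scoped RealInnerProductSpace

set_option linter.deprecated false

theorem ab_step {G : Type*} [Group G] (H K : Subgroup G) [Finite K] (hHK : H ≤ K)
    (hc : ∀ a ∈ K, ∀ b ∈ K, Commute a b) (l : ℕ) (hl : l.Prime) (h0 : ∀ a ∈ K, a ^ l ∈ H)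
    (hne : Nat.card H ≠ Nat.card K) : Nat.card H * l ≤ Nat.card K := by
  have : Fact l.Prime := ⟨hl⟩
  have hN : (H.subgroupOf K).Normal := ⟨fun n hn g => by
    have e : g * n * g⁻¹ = n := by
      have : g * n = n * g := Subtype.ext (hc g g.2 n n.2).eq
      rw [this, mul_inv_cancel_right]
    rwa [e]⟩
  obtain ⟨x, hxK, hxH⟩ : ∃ x ∈ K, x ∉ H := by
    by_contra hcon
    push Not at hcon
    exact hne (by rw [le_antisymm hHK hcon])
  set q : K ⧸ H.subgroupOf K := QuotientGroup.mk ⟨x, hxK⟩ with hq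
  have hq1 : q ≠ 1 := fun h => by
    rw [hq, QuotientGroup.eq_one_iff] at h
    exact hxH h
  have hql : q ^ l = 1 := by
    rw [hq, ← QuotientGroup.mk_pow, QuotientGroup.eq_one_iff]
    exact h0 x hxK
  have hdvd : l ∣ (H.subgroupOf K).index := by
    rw [← orderOf_eq_prime hql hq1]
    exact orderOf_dvd_natCard q
  have h1 := Subgroup.card_mul_index (H.subgroupOf K)
  rw [Nat.card_congr (Subgroup.subgroupOfEquivOfLe hHK).toEquiv] at h1
  rw [← h1]
  exact Nat.mul_le_mul_left _ (Nat.le_of_dvd (Nat.pos_of_ne_zero Subgroup.index_ne_zero_of_finite)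
    hdvd)

theorem stall_pow {G : Type*} [Group G] (A : Subgroup G) [Finite A]
    (hc : ∀ a ∈ A, ∀ b ∈ A, Commute a b) (N l : ℕ) (hl : l.Prime)
    (hrk : Nat.card {x : A // x ^ l = 1} ≤ l ^ N) (φ : ℕ → Subgroup G)
    (hA : ∀ s ≤ N + 1, φ s ≤ A) (hφ : ∀ s ≤ N, φ s ≤ φ (s + 1)) (h0 : ∀ a ∈ A, a ^ l ∈ φ 0) :
    ∃ s ≤ N, Nat.card (φ s) = Nat.card (φ (s + 1)) := by
  by_contra hcon
  push Not at hcon
  have hfin : ∀ s ≤ N + 1, Finite (φ s) := fun s hs =>
    Finite.of_injective _ (Subgroup.inclusion_injective (hA s hs))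
  have key : ∀ s ≤ N + 1, φ 0 ≤ φ s ∧ Nat.card (φ 0) * l ^ s ≤ Nat.card (φ s) := by
    intro s
    induction s with
    | zero => intro _; simp
    | succ s ih =>
      intro hs
      obtain ⟨i1, i2⟩ := ih (by omega)
      have := hfin (s + 1) hs
      have hs' : s ≤ N := by omega
      refine ⟨i1.trans (hφ s hs'), ?_⟩
      have := ab_step (φ s) (φ (s + 1)) (hφ s hs')
        (fun a ha b hb => hc a (hA _ hs ha) b (hA _ hs hb)) l hl
        (fun a ha => i1 (h0 a (hA _ hs ha))) (hcon s hs')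
      calc Nat.card (φ 0) * l ^ (s + 1) = Nat.card (φ 0) * l ^ s * l := by ring
        _ ≤ Nat.card (φ s) * l := Nat.mul_le_mul_right _ i2
        _ ≤ _ := this
  let p : A →* G := MonoidHom.mk' (fun a => (a : G) ^ l) fun a b => (hc a a.2 b b.2).mul_pow l
  have h1 := Subgroup.card_mul_index p.ker
  rw [Subgroup.index_ker] at h1
  have h2 : Nat.card p.ker = Nat.card {x : A // x ^ l = 1} :=
    Nat.card_congr (Equiv.subtypeEquivRight fun x => by
      rw [MonoidHom.mem_ker, Subtype.ext_iff]; rfl)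
  have := hfin 0 (by omega)
  have h3 : Nat.card p.range ≤ Nat.card (φ 0) :=
    Subgroup.card_le_of_le (by rintro _ ⟨a, rfl⟩; exact h0 a a.2)
  have h4 := (key (N + 1) le_rfl).2
  have h5 : Nat.card (φ (N + 1)) ≤ Nat.card A := Subgroup.card_le_of_le (hA _ le_rfl)
  have h6 : Nat.card A ≤ l ^ N * Nat.card (φ 0) := by
    rw [← h1, h2]; exact Nat.mul_le_mul hrk h3
  have h7 : 0 < Nat.card (φ 0) := Nat.card_pos
  have h8 : 0 < l ^ N := pow_pos hl.pos N
  have h9 := hl.two_le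
  have h10 : Nat.card (φ 0) * l ^ (N + 1) = l ^ N * Nat.card (φ 0) * l := by ring
  have h11 : 0 < l ^ N * Nat.card (φ 0) := Nat.mul_pos h8 h7
  nlinarith

theorem le_of_sup_pow {G : Type*} [Group G] (A H : Subgroup G) [Finite A]
    (hc : ∀ a ∈ A, ∀ b ∈ A, Commute a b) (hH : H ≤ A)
    (h : ∀ l : ℕ, l.Prime → A ≤ H ⊔ Subgroup.closure {x | ∃ a ∈ A, a ^ l = x}) : A ≤ H := by
  have hp : ∀ l : ℕ, l.Prime → ∀ g ∈ A, ∃ u ∈ H, ∃ a ∈ A, g = u * a ^ l := by
    intro l hl g hg
    let K : Subgroup G :=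
      { carrier := {g | ∃ u ∈ H, ∃ a ∈ A, g = u * a ^ l}
        one_mem' := ⟨1, H.one_mem, 1, A.one_mem, by simp⟩
        mul_mem' := by
          rintro _ _ ⟨u, hu, a, ha, rfl⟩ ⟨w, hw, b, hb, rfl⟩
          refine ⟨u * w, H.mul_mem hu hw, a * b, A.mul_mem ha hb, ?_⟩
          rw [(hc a ha b hb).mul_pow, mul_assoc, mul_assoc, ← mul_assoc (a ^ l),
            (hc _ (A.pow_mem ha l) w (hH hw)).eq, mul_assoc]
        inv_mem' := by
          rintro _ ⟨u, hu, a, ha, rfl⟩
          refine ⟨u⁻¹, H.inv_mem hu, a⁻¹, A.inv_mem ha, ?_⟩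
          rw [mul_inv_rev, inv_pow]
          exact (hc _ (A.inv_mem (A.pow_mem ha l)) _ (A.inv_mem (hH hu))).eq }
    have hK : H ⊔ Subgroup.closure {x | ∃ a ∈ A, a ^ l = x} ≤ K :=
      sup_le (fun u hu => ⟨u, hu, 1, A.one_mem, by simp⟩)
        ((Subgroup.closure_le K).mpr (by
          rintro _ ⟨a, ha, rfl⟩
          exact ⟨1, H.one_mem, a, ha, by simp⟩))
    exact hK (h l hl hg)
  have hn : ∀ n : ℕ, n ≠ 0 → ∀ g ∈ A, ∃ u ∈ H, ∃ a ∈ A, g = u * a ^ n := by
    intro n
    induction n using induction_on_primes with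
    | zero => intro h0; exact absurd rfl h0
    | one => intro _ g hg; exact ⟨1, H.one_mem, g, hg, by simp⟩
    | prime_mul l m hl ih =>
      intro h0 g hg
      obtain ⟨u, hu, a, ha, rfl⟩ := hp l hl g hg
      obtain ⟨w, hw, b, hb, rfl⟩ := ih (fun e => h0 (by rw [e, mul_zero])) a ha
      refine ⟨u * w ^ l, H.mul_mem hu (H.pow_mem hw l), b, hb, ?_⟩
      rw [(hc w (hH hw) _ (A.pow_mem hb m)).mul_pow, ← pow_mul, mul_comm m l, mul_assoc]
  intro g hg
  obtain ⟨u, hu, a, ha, rfl⟩ := hn (Nat.card A) Nat.card_pos.ne' g hg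
  have : a ^ Nat.card A = 1 := congrArg Subtype.val (pow_card_eq_one' (x := (⟨a, ha⟩ : A)))
  rwa [this, mul_one]

variable {E : Type*} [NormedAddCommGroup E] [InnerProductSpace ℝ E] [FiniteDimensional ℝ E]

/-- A commutative algebra of operators closed under adjoints has a separating vector. -/
theorem ab_sep (A : Submodule ℝ (E →L[ℝ] E)) (hm : ∀ S ∈ A, ∀ T ∈ A, S * T ∈ A ∧ S * T = T * S)
    (ha : ∀ T ∈ A, ∃ T' ∈ A, ∀ u v, ⟪T u, v⟫ = ⟪u, T' v⟫) :
    Module.finrank ℝ A ≤ Module.finrank ℝ E := by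
  let ev : E → (A →ₗ[ℝ] E) := fun x =>
    { toFun := fun T => (T : E →L[ℝ] E) x
      map_add' := fun S T => rfl
      map_smul' := fun c T => rfl }
  obtain ⟨x, hx⟩ := exists_minimalFor_of_wellFoundedLT (fun _ : E => True)
    (fun x => Module.finrank ℝ (LinearMap.ker (ev x))) ⟨0, trivial⟩
  refine LinearMap.finrank_le_finrank_of_injective (f := ev x) ?_
  rw [← LinearMap.ker_eq_bot, eq_bot_iff]
  intro T0 hT0
  by_contra hne
  have hT0x : (T0 : E →L[ℝ] E) x = 0 := hT0
  obtain ⟨y, hy⟩ : ∃ y, (T0 : E →L[ℝ] E) y ≠ 0 := by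
    by_contra hcon
    push Not at hcon
    exact hne (Subtype.ext (ContinuousLinearMap.ext hcon))
  obtain ⟨y1, ⟨S, hS⟩, y2, hy2, rfl⟩ := (LinearMap.range (ev x)).exists_add_mem_mem_orthogonal y
  have h1 : (T0 : E →L[ℝ] E) y1 = 0 := by
    have e : y1 = (S : E →L[ℝ] E) x := hS.symm
    rw [e, ← ContinuousLinearMap.mul_apply, (hm _ T0.2 _ S.2).2, ContinuousLinearMap.mul_apply,
      hT0x, map_zero]
  have hle : LinearMap.ker (ev (x + y2)) ≤ LinearMap.ker (ev x) := by
    intro T hT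
    have e : (T : E →L[ℝ] E) (x + y2) = 0 := hT
    rw [map_add] at e
    obtain ⟨T', hT', had⟩ := ha T T.2
    have e2 : ⟪(T : E →L[ℝ] E) y2, (T : E →L[ℝ] E) x⟫ = 0 := by
      rw [had, real_inner_comm]
      exact hy2 _ ⟨⟨T' * T, (hm _ hT' _ T.2).1⟩, rfl⟩
    have e3 : (T : E →L[ℝ] E) y2 = -(T : E →L[ℝ] E) x := eq_neg_of_add_eq_zero_right e
    rw [e3, inner_neg_left, neg_eq_zero, inner_self_eq_zero] at e2
    exact e2
  have hlt : LinearMap.ker (ev (x + y2)) < LinearMap.ker (ev x) := by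
    refine lt_of_le_of_ne hle fun e => hy ?_
    have e1 : T0 ∈ LinearMap.ker (ev (x + y2)) := e ▸ hT0
    have e2 : (T0 : E →L[ℝ] E) (x + y2) = 0 := e1
    rw [map_add, hT0x] at e2
    rw [map_add, h1, e2]
  have h2 := Submodule.finrank_lt_finrank_of_lt hlt
  exact absurd (hx.2 (j := x + y2) trivial h2.le) (not_le.mpr h2)

/-- The span of the linear parts of a commutative group has dimension at most `dim E`. -/
theorem finrank_span_le (W : Subgroup (E ≃ᵢ E)) (hc : ∀ a ∈ W, ∀ b ∈ W, Commute a b) :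
    Module.finrank ℝ (Submodule.span ℝ (lin '' (W : Set (E ≃ᵢ E)))) ≤ Module.finrank ℝ E := by
  refine ab_sep _ (fun S hS T hT => ?_) fun T hT => ?_
  · induction hS, hT using Submodule.span_induction₂ with
    | mem_mem S T hS hT =>
      obtain ⟨a, ha, rfl⟩ := hS
      obtain ⟨b, hb, rfl⟩ := hT
      rw [← map_mul, ← map_mul]
      exact ⟨Submodule.subset_span ⟨a * b, W.mul_mem ha hb, rfl⟩, by rw [(hc a ha b hb).eq]⟩
    | zero_left T hT => simp
    | zero_right S hS => simp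
    | add_left S S' T _ _ _ h1 h2 =>
      rw [add_mul, mul_add]
      exact ⟨Submodule.add_mem _ h1.1 h2.1, by rw [h1.2, h2.2]⟩
    | add_right S T T' _ _ _ h1 h2 =>
      rw [add_mul, mul_add]
      exact ⟨Submodule.add_mem _ h1.1 h2.1, by rw [h1.2, h2.2]⟩
    | smul_left r S T _ _ h1 =>
      rw [smul_mul_assoc, mul_smul_comm]
      exact ⟨Submodule.smul_mem _ r h1.1, by rw [h1.2]⟩
    | smul_right r S T _ _ h1 =>
      rw [smul_mul_assoc, mul_smul_comm]
      exact ⟨Submodule.smul_mem _ r h1.1, by rw [h1.2]⟩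
  · induction hT using Submodule.span_induction with
    | mem T hT =>
      obtain ⟨a, ha, rfl⟩ := hT
      exact ⟨lin a⁻¹, Submodule.subset_span ⟨a⁻¹, W.inv_mem ha, rfl⟩, inner_lin_left a⟩
    | zero => exact ⟨0, Submodule.zero_mem _, fun u v => by simp⟩
    | add S T _ _ h1 h2 =>
      obtain ⟨S', hS', e1⟩ := h1
      obtain ⟨T', hT', e2⟩ := h2
      exact ⟨S' + T', Submodule.add_mem _ hS' hT', fun u v => by
        simp [inner_add_left, inner_add_right, e1, e2]⟩
    | smul r T _ h1 =>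
      obtain ⟨T', hT', e⟩ := h1
      exact ⟨r • T', Submodule.smul_mem _ r hT', fun u v => by
        simp [inner_smul_left, inner_smul_right, e]⟩

omit [FiniteDimensional ℝ E] in
theorem ab_fix {g : E ≃ᵢ E} {v : ℕ} (hv : 0 < v) (h : g ^ v = 1) : ∃ y, g y = y := by
  have hv' : (v : ℝ) ≠ 0 := by positivity
  have hl : ∀ x, lin g x = g x - g 0 := lin0_apply g
  set s : E := ∑ i ∈ Finset.range v, (g ^ i) 0 with hs
  have h1 : ∑ i ∈ Finset.range v, (g ^ (i + 1)) 0 = s := by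
    have e1 := Finset.sum_range_succ (fun i => (g ^ i) 0) v
    have e2 := Finset.sum_range_succ' (fun i => (g ^ i) 0) v
    rw [e2, h, pow_zero] at e1
    exact add_right_cancel e1
  have h2 : lin g s = s - (v : ℝ) • g 0 := by
    conv_lhs => rw [hs, map_sum]
    simp only [hl]
    rw [Finset.sum_sub_distrib, Finset.sum_const, Finset.card_range, Nat.cast_smul_eq_nsmul, ← h1]
    simp only [pow_succ', IsometryEquiv.mul_apply]
  refine ⟨(v : ℝ)⁻¹ • s, ?_⟩
  have h3 := hl ((v : ℝ)⁻¹ • s)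
  rw [map_smul, h2, smul_sub, smul_smul, inv_mul_cancel₀ hv', one_smul] at h3
  exact (sub_left_inj.mp h3).symm

set_option linter.unusedSectionVars false in
/-- An isometry of finite order has a fixed point. -/
theorem exists_fix {g : E ≃ᵢ E} {v : ℕ} (hv : 0 < v) (h : g ^ v = 1) : ∃ y, g y = y :=
  ab_fix hv h

/-- In a discrete group, elements with small linear part commute if one has a fixed point. -/
theorem commute_of_discrete (W : Subgroup (E ≃ᵢ E)) (y : E)
    (hd : ∀ ρ : ℝ, {g | g ∈ W ∧ dist (g y) y ≤ ρ}.Finite) {a b : E ≃ᵢ E} (ha : a ∈ W) (hb : b ∈ W)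
    (ha' : ‖lin a - 1‖ < 1 / 2) (hb' : ‖lin b - 1‖ < 1 / 2) {z : E} (hz : b z = z) :
    Commute a b := by
  have hz' : b⁻¹ z = z := by
    conv_lhs => rw [← hz]
    simp
  set t := 2 * ‖lin b - 1‖ with ht
  have ht0 : 0 ≤ t := by positivity
  have ht1 : t < 1 := by linarith
  set L := dist (a z) z with hL
  have hL0 : 0 ≤ L := dist_nonneg
  have inv : ∀ k : ℕ, Sys.itc a b k ∈ W ∧ dist (Sys.itc a b k z) z ≤ L * t ^ k ∧
      ‖lin (Sys.itc a b k) - 1‖ ≤ t ^ k * (1 / 2) := by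
    intro k
    induction k with
    | zero => exact ⟨ha, by simp [Sys.itc, hL], by simpa [Sys.itc] using ha'.le⟩
    | succ k ih =>
      obtain ⟨h0, h1, h2⟩ := ih
      simp only [Sys.itc]
      set f := Sys.itc a b k
      have d1 : dist (f⁻¹ z) z = dist (f z) z := by
        rw [← f.dist_eq, dist_comm]; simp
      refine ⟨W.mul_mem (W.mul_mem (W.mul_mem h0 hb) (W.inv_mem h0)) (W.inv_mem hb), ?_, ?_⟩
      · have e : (f * b * f⁻¹ * b⁻¹) z = f (b (f⁻¹ z)) := by simp [hz']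
        have e' : dist (f (b (f⁻¹ z))) z = dist (b (f⁻¹ z)) (f⁻¹ z) := by
          rw [← f.dist_eq (b _)]; simp
        have h3 := dist_move b (f⁻¹ z) z
        rw [hz, dist_self, d1] at h3
        rw [e, e', pow_succ]
        have h4 : ‖lin b - 1‖ * dist (f z) z ≤ t * (L * t ^ k) :=
          mul_le_mul (by linarith [norm_nonneg (lin b - 1)]) h1 dist_nonneg ht0
        linarith
      · refine (norm_lin_comm f b).trans ?_
        rw [pow_succ, ← ht]
        nlinarith
  have hp : ∀ k : ℕ, t ^ k ≤ 1 := fun k => pow_le_one₀ ht0 ht1.le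
  have hfin : (Set.range (Sys.itc a b)).Finite := by
    refine (hd (L + dist y z)).subset ?_
    rintro _ ⟨k, rfl⟩
    obtain ⟨h0, h1, h2⟩ := inv k
    refine ⟨h0, (dist_move _ y z).trans ?_⟩
    have h3 : L * t ^ k ≤ L := mul_le_of_le_one_right hL0 (hp k)
    have h4 : ‖lin (Sys.itc a b k) - 1‖ * dist y z ≤ dist y z :=
      mul_le_of_le_one_left dist_nonneg (by linarith [hp k])
    linarith
  obtain ⟨_, ⟨k, rfl⟩, hk⟩ := Set.exists_min_image _
    (fun g : E ≃ᵢ E => dist (g z) z + ‖lin g - 1‖) hfin (Set.range_nonempty _)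
  have lim : Filter.Tendsto (fun j : ℕ => L * t ^ j + t ^ j * (1 / 2)) Filter.atTop (nhds 0) := by
    have a2 := tendsto_pow_atTop_nhds_zero_of_lt_one ht0 ht1
    have a3 := (a2.const_mul L).add (a2.mul_const (1 / 2))
    rwa [mul_zero, zero_mul, add_zero] at a3
  have h0 : dist (Sys.itc a b k z) z + ‖lin (Sys.itc a b k) - 1‖ ≤ 0 :=
    ge_of_tendsto' lim fun j => (hk _ ⟨j, rfl⟩).trans (add_le_add (inv j).2.1 (inv j).2.2)
  have hk1 : Sys.itc a b k = 1 := by
    have p1 := dist_nonneg (x := Sys.itc a b k z) (y := z)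
    have p2 := norm_nonneg (lin (Sys.itc a b k) - 1)
    exact eq_one_of_lin (y := z) (dist_le_zero.mp (by linarith))
      (sub_eq_zero.mp (norm_le_zero_iff.mp (by linarith)))
  have down : ∀ j, Commute (Sys.itc a b j) b → Commute a b := by
    intro j
    induction j with
    | zero => exact id
    | succ j ih =>
      intro h
      refine ih (frob _ b hz ?_ h)
      have := (inv j).2.2
      linarith [hp j]
  exact down k (by rw [hk1]; exact Commute.one_left b)

end Pool.Agent.Lib.MP_6d95fe_co.H35
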