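import Mathlib

/-! Tilings of a metric space, coronas and isohedrality. -/

namespace Pool.Agent.Lib.MP_6d95fe_co.H35

variable {X : Type*} [MetricSpace X]

/-- A tiling by compact tiles with non-empty, pairwise disjoint interiors. -/
def IsTiling (T : Set (Set X)) : Prop :=
  (∀ P ∈ T, IsCompact P ∧ (interior P).Nonempty) ∧ (∀ z, ∃ P ∈ T, z ∈ P) ∧
    ∀ P ∈ T, ∀ Q ∈ T, P ≠ Q → Disjoint (interior P) (interior Q)

/-- The `k`-th corona of the tile `P`: the tiles `Q` joined to `P` by a chain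
`P = c 0, c 1, ..., c m = Q` of tiles with `m ≤ k` and consecutive tiles intersecting. -/
def corona (T : Set (Set X)) (k : ℕ) (P : Set X) : Set (Set X) :=
  {Q | ∃ m ≤ k, ∃ c : ℕ → Set X, c 0 = P ∧ c m = Q ∧ (∀ i ≤ m, c i ∈ T) ∧
    ∀ i < m, (c i ∩ c (i + 1)).Nonempty}

/-- Condition (b) of the local criterion: any two tiles have their `k`-th coronas related by an
isometry carrying the one tile to the other. -/
def CoronasCongruent (T : Set (Set X)) (k : ℕ) : Prop :=
  ∀ P ∈ T, ∀ P' ∈ T, ∃ g : X ≃ᵢ X, g '' P = P' ∧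
    (fun Q => g '' Q) '' corona T k P = corona T k P'

/-- The symmetry group of the tiling acts transitively on the tiles. -/
def IsIsohedral (T : Set (Set X)) : Prop :=
  ∀ P ∈ T, ∀ P' ∈ T, ∃ g : X ≃ᵢ X, (fun Q => g '' Q) '' T = T ∧ g '' P = P'

end Pool.Agent.Lib.MP_6d95fe_co.H35
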