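import Pool.Agent.Lib.MP_6d95fe_co.H50Del5
import Pool.Agent.Lib.MP_6d95fe_co.H35.Defs

/-! Elementary facts on coronas; the stabiliser of the corona of level `dim` is finite. -/

namespace Pool.Agent.Lib.MP_6d95fe_co.H35

open Pool.Agent.Lib.MP_6d95fe_co.Del
open scoped RealInnerProductSpace

section
variable {X : Type*} [MetricSpace X] {T : Set (Set X)} {P Q R : Set X} {k l : ℕ}

omit [MetricSpace X] in
theorem cor_mono (h : k ≤ l) : corona T k P ⊆ corona T l P :=
  fun _ ⟨m, hm, c⟩ => ⟨m, hm.trans h, c⟩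

omit [MetricSpace X] in
theorem cor_self (hP : P ∈ T) : P ∈ corona T k P :=
  ⟨0, k.zero_le, fun _ => P, rfl, rfl, fun _ _ => hP, fun _ h => absurd h (Nat.not_lt_zero _)⟩

omit [MetricSpace X] in
theorem cor_mem (h : Q ∈ corona T k P) : Q ∈ T := by
  obtain ⟨m, -, c, -, e, h, -⟩ := h
  exact e ▸ h m le_rfl

omit [MetricSpace X] in
theorem cor_base (h : Q ∈ corona T k P) : P ∈ T := by
  obtain ⟨m, -, c, e, -, h, -⟩ := h
  exact e ▸ h 0 m.zero_le

omit [MetricSpace X] in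
theorem cor_cons (hP : P ∈ T) (hPQ : (P ∩ Q).Nonempty) (h : R ∈ corona T k Q) :
    R ∈ corona T (k + 1) P := by
  obtain ⟨m, hm, c, e0, em, h1, h2⟩ := h
  refine ⟨m + 1, by omega, fun i => Nat.casesOn i P c, rfl, em, ?_, ?_⟩
  · rintro (_ | i) hi
    exacts [hP, h1 i (by omega)]
  · rintro (_ | i) hi
    exacts [(e0 ▸ hPQ : (P ∩ c 0).Nonempty), h2 i (by omega)]

omit [MetricSpace X] in
/-- A property that passes to touching tiles holds on every corona. -/
theorem cor_ind {p : Set X → Prop} (hP : p P)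
    (step : ∀ A ∈ T, ∀ B ∈ T, (A ∩ B).Nonempty → p A → p B) (h : Q ∈ corona T k P) : p Q := by
  obtain ⟨m, -, c, e0, em, h1, h2⟩ := h
  have : ∀ i ≤ m, p (c i) := by
    intro i
    induction i with
    | zero => exact fun _ => e0 ▸ hP
    | succ i ih =>
      exact fun hi => step _ (h1 i (by omega)) _ (h1 _ hi) (h2 i (by omega)) (ih (by omega))
  exact em ▸ this m le_rfl

omit [MetricSpace X] in
/-- A map sending the tiles of a corona to tiles sends smaller coronas into coronas. -/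
theorem cor_map {g : X → X} (hg : ∀ A ∈ corona T l P, g '' A ∈ T) (h : k ≤ l)
    (hQ : Q ∈ corona T k P) : g '' Q ∈ corona T k (g '' P) := by
  obtain ⟨m, hm, c, e0, em, h1, h2⟩ := hQ
  refine ⟨m, hm, fun i => g '' c i, by rw [← e0], by rw [← em], fun i hi => hg _ ?_,
    fun i hi => ((h2 i hi).image g).mono (Set.image_inter_subset _ _ _)⟩
  exact ⟨i, by omega, c, e0, rfl, fun j hj => h1 j (by omega), fun j hj => h2 j (by omega)⟩

end

variable {E : Type*} [NormedAddCommGroup E] [InnerProductSpace ℝ E] [FiniteDimensional ℝ E]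

/-- The isometries fixing a tile and its corona of level `dim` form a finite set. -/
theorem finite_stab {T : Set (Set E)} {K : ℕ} {D : ℝ} (hb : CoronasCongruent T K)
    (hK : Module.finrank ℝ E ≤ K) (conn : ∀ P ∈ T, ∀ Q ∈ T, ∃ k, Q ∈ corona T k P)
    (hne : ∀ P ∈ T, P.Nonempty) (hD : ∀ P ∈ T, ∀ p ∈ P, ∀ q ∈ P, dist p q ≤ D)
    (hsp : ∀ (u : E) (a : ℝ), (∀ P ∈ T, ∀ c, IsCc P c → ⟪u, c⟫ = a) → u = 0)
    {P : Set E} (hP : P ∈ T) (fin : (corona T (Module.finrank ℝ E) P).Finite) :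
    {g : E ≃ᵢ E | g '' P = P ∧ ∀ Q ∈ corona T (Module.finrank ℝ E) P,
      g '' Q ∈ corona T (Module.finrank ℝ E) P}.Finite := by
  choose! cc hcc using fun A (h : A ∈ T) => exists_isCc (hne A h) (hD A h)
  have eqv : ∀ (g : E ≃ᵢ E), ∀ A ∈ T, g '' A ∈ T → cc (g '' A) = g (cc A) := fun g A h h' =>
    (hcc _ h').unique (hne _ h') (hD _ h') ((hcc A h).image g)
  let V : ℕ → Set E → Submodule ℝ E := fun s A =>
    Submodule.span ℝ ((fun B => cc B - cc A) '' corona T s A)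
  have mono : ∀ {s t} A, s ≤ t → V s A ≤ V t A := fun A h =>
    Submodule.span_mono (Set.image_mono (cor_mono h))
  have nb : ∀ s, ∀ A ∈ T, ∀ B ∈ T, (A ∩ B).Nonempty → cc B - cc A ∈ V (s + 1) A :=
    fun s A hA B hB h => Submodule.subset_span ⟨B, cor_cons hA h (cor_self hB), rfl⟩
  have sh : ∀ s, ∀ A ∈ T, ∀ B ∈ T, (A ∩ B).Nonempty → V s B ≤ V (s + 1) A := by
    intro s A hA B hB h
    refine Submodule.span_le.2 ?_
    rintro _ ⟨R, hR, rfl⟩
    have := (V (s + 1) A).sub_mem (Submodule.subset_span ⟨R, cor_cons hA h hR, rfl⟩)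
      (nb s A hA B hB h)
    simpa using this
  have dim : ∀ s ≤ K, ∀ A ∈ T, ∀ B ∈ T, Module.finrank ℝ (V s A) ≤ Module.finrank ℝ (V s B) := by
    intro s hs A hA B hB
    obtain ⟨g, e, hg⟩ := hb A hA B hB
    have hT : ∀ R ∈ corona T K A, g '' R ∈ T := fun R hR => cor_mem (hg ▸ ⟨R, hR, rfl⟩ :
      g '' R ∈ corona T K B)
    have inj : Function.Injective (lin g : E →ₗ[ℝ] E) := fun x y h => by
      simpa only [lin_inv_lin] using congrArg (lin g⁻¹) (show lin g x = lin g y from h)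
    rw [(Submodule.equivMapOfInjective _ inj (V s A)).finrank_eq]
    refine Submodule.finrank_mono ?_
    rw [Submodule.map_span]
    refine Submodule.span_mono ?_
    rintro _ ⟨_, ⟨R, hR, rfl⟩, rfl⟩
    refine ⟨g '' R, e ▸ cor_map hT hs hR, ?_⟩
    show _ = lin g _
    rw [lin_sub, ← e]
    beta_reduce
    rw [eqv g R (cor_mem hR) (hT R (cor_mono hs hR)), eqv g A hA (e ▸ hB)]
  have stall : ∀ s, s + 1 ≤ K → V s P = V (s + 1) P → V s P = ⊤ := by
    intro s hs e
    have all : ∀ A ∈ T, V s A = V (s + 1) A := fun A hA =>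
      Submodule.eq_of_le_of_finrank_le (mono A s.le_succ)
        ((dim _ hs A hA P hP).trans (e ▸ dim s (by omega) P hP A hA))
    have key : ∀ A ∈ T, V s A = V s P ∧ cc A - cc P ∈ V s P := by
      intro A hA
      obtain ⟨k, hk⟩ := conn P hP A hA
      refine cor_ind (p := fun A => V s A = V s P ∧ cc A - cc P ∈ V s P) ⟨rfl, by simp⟩ ?_ hk
      rintro A hA B hB h ⟨e1, e2⟩
      refine ⟨le_antisymm ?_ ?_, ?_⟩
      · rw [← e1, all A hA]
        exact sh s A hA B hB h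
      · rw [← e1, all B hB]
        exact sh s B hB A hA (Set.inter_comm A B ▸ h)
      · have := nb s A hA B hB h
        rw [← all A hA, e1] at this
        simpa using (V s P).add_mem this e2
    rw [← Submodule.orthogonal_eq_bot_iff, Submodule.eq_bot_iff]
    refine fun u hu => hsp u ⟪u, cc P⟫ fun A hA c hc => ?_
    rw [hc.unique (hne A hA) (hD A hA) (hcc A hA), ← sub_eq_zero, ← inner_sub_right]
    exact Submodule.inner_left_of_mem_orthogonal (key A hA).2 hu
  have top : V (Module.finrank ℝ E) P = ⊤ := by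
    by_contra c
    have : ∀ s ≤ Module.finrank ℝ E, s ≤ Module.finrank ℝ (V s P) := by
      intro s
      induction s with
      | zero => exact fun _ => Nat.zero_le _
      | succ s ih =>
        intro hs
        refine (ih (by omega)).trans_lt (Submodule.finrank_lt_finrank_of_lt
          (lt_of_le_of_ne (mono P s.le_succ) fun e => c ?_))
        exact top_unique ((stall s (by omega) e).ge.trans (mono P (by omega)))
    exact c (Submodule.eq_top_of_finrank_eq
      (le_antisymm (Submodule.finrank_le _) (this _ le_rfl)))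
  have := fin.to_subtype
  refine Set.finite_coe_iff.1 (Finite.of_injective (β := corona T (Module.finrank ℝ E) P →
    corona T (Module.finrank ℝ E) P) (fun g Q => ⟨g.1 '' Q.1, g.2.2 _ Q.2⟩) ?_)
  rintro ⟨g, g1, g2⟩ ⟨h, h1, h2⟩ e
  have ec : ∀ Q ∈ corona T (Module.finrank ℝ E) P, g (cc Q) = h (cc Q) := fun Q hQ => by
    rw [← eqv g Q (cor_mem hQ) (cor_mem (g2 Q hQ)), ← eqv h Q (cor_mem hQ) (cor_mem (h2 Q hQ))]
    exact congrArg cc (congrArg Subtype.val (congrFun e ⟨Q, hQ⟩))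
  have el : (lin g : E →ₗ[ℝ] E) = (lin h : E →ₗ[ℝ] E) := by
    refine LinearMap.ext_on top ?_
    rintro _ ⟨Q, hQ, rfl⟩
    show lin g _ = lin h _
    rw [lin_sub, lin_sub, ec Q hQ, ec P (cor_self hP)]
  refine Subtype.ext (IsometryEquiv.ext fun x => ?_)
  have : lin g (x - cc P) = lin h (x - cc P) := LinearMap.congr_fun el _
  rwa [lin_sub, lin_sub, ec P (cor_self hP), sub_left_inj] at this

omit [FiniteDimensional ℝ E] in
/-- The centres of a cover of the space by sets of bounded diameter span it. -/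
theorem span_euclid {T : Set (Set E)} {D : ℝ} (hD : ∀ P ∈ T, ∀ p ∈ P, ∀ q ∈ P, dist p q ≤ D)
    (hc : ∀ P ∈ T, ∃ c, IsCc P c) (cov : ∀ z, ∃ P ∈ T, z ∈ P) (u : E) (a : ℝ)
    (h : ∀ P ∈ T, ∀ c, IsCc P c → ⟪u, c⟫ = a) : u = 0 := by
  by_contra hu
  have u0 : 0 < ‖u‖ := norm_pos_iff.2 hu
  obtain ⟨P, hP, hz⟩ := cov (((a + ‖u‖ * D + 1) / ‖u‖ ^ 2) • u)
  obtain ⟨c, hc⟩ := hc P hP
  have h1 := hc _ D (hD P hP _ hz) _ hz
  have h2 := real_inner_le_norm u (((a + ‖u‖ * D + 1) / ‖u‖ ^ 2) • u - c)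
  rw [inner_sub_right, h P hP c hc, inner_smul_right, real_inner_self_eq_norm_sq,
    div_mul_cancel₀ _ (by positivity), ← dist_eq_norm, dist_comm] at h2
  nlinarith

omit [FiniteDimensional ℝ E] in
/-- The centres of a cover of the unit sphere by sets in balls of radius `< 1` span the space. -/
theorem span_sphere {T : Set (Set E)}
    (hb : ∀ P ∈ T, ∃ x : E, ∃ t : ℝ, t < 1 ∧ ∀ p ∈ P, dist x p ≤ t)
    (hc : ∀ P ∈ T, ∃ c, IsCc P c) (cov : ∀ z : E, ‖z‖ = 1 → ∃ P ∈ T, z ∈ P) (u : E) (a : ℝ)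
    (h : ∀ P ∈ T, ∀ c, IsCc P c → ⟪u, c⟫ = a) : u = 0 := by
  by_contra hu
  have u0 : 0 < ‖u‖ := norm_pos_iff.2 hu
  have key : ∀ r : ℝ, |r| = ‖u‖⁻¹ → 0 < r * a := by
    intro r hr
    have n1 : ‖r • u‖ = 1 := by rw [norm_smul, Real.norm_eq_abs, hr, inv_mul_cancel₀ u0.ne']
    obtain ⟨P, hP, hz⟩ := cov _ n1
    obtain ⟨c, hc⟩ := hc P hP
    obtain ⟨x, t, ht, hx⟩ := hb P hP
    have h2 := (hc x t hx _ hz).trans_lt ht
    have h3 := norm_sub_sq_real (r • u) c
    rw [n1, inner_smul_left, h P hP c hc, ← dist_eq_norm, dist_comm] at h3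
    simp only [conj_trivial] at h3
    nlinarith [dist_nonneg (x := c) (y := r • u), sq_nonneg ‖c‖]
  have k1 := key ‖u‖⁻¹ (abs_of_pos (by positivity))
  have k2 := key (-‖u‖⁻¹) (by rw [abs_neg]; exact abs_of_pos (by positivity))
  linarith

end Pool.Agent.Lib.MP_6d95fe_co.H35
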