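import Mathlib

/-! Coronas of an abstract family of tiles, the local criterion and the stall lemma. -/

namespace Pool.Agent.Lib.MP_6d95fe_co.H35

/-- A family of tiles with an invariant symmetric adjacency relation. -/
structure Fam (G X : Type*) [Group G] [MulAction G X] where
  T : Set X
  adj : X → X → Prop
  symm : ∀ a b, adj a b → adj b a
  smul_adj : ∀ (g : G) a b, adj a b → adj (g • a) (g • b)

namespace Fam

variable {G X : Type*} [Group G] [MulAction G X] (F : Fam G X)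

/-- The `k`-th corona. -/
def C : ℕ → X → Set X
  | 0, P => {P}
  | k + 1, P => C k P ∪ {Q | Q ∈ F.T ∧ ∃ R ∈ C k P, F.adj R Q}

/-- `g` maps the members of the `k`-th corona of `P` to tiles. -/
def Loc (k : ℕ) (g : G) (P : X) : Prop := ∀ Q ∈ F.C k P, g • Q ∈ F.T

/-- `g` matches the `k`-th coronas of `P` and `g • P`. -/
def Good (k : ℕ) (g : G) (P : X) : Prop := F.Loc k g P ∧ F.Loc k g⁻¹ (g • P)

variable {F}

theorem mem_zero {P Q : X} : Q ∈ F.C 0 P ↔ Q = P := Iff.rfl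

theorem mem_succ {k : ℕ} {P Q : X} :
    Q ∈ F.C (k + 1) P ↔ Q ∈ F.C k P ∨ (Q ∈ F.T ∧ ∃ R ∈ F.C k P, F.adj R Q) := Iff.rfl

theorem mem_T {k : ℕ} {P Q : X} (hP : P ∈ F.T) (h : Q ∈ F.C k P) : Q ∈ F.T := by
  induction k with
  | zero => rw [mem_zero.mp h]; exact hP
  | succ k ih => exact (mem_succ.mp h).elim ih fun h => h.1

theorem C_mono {k l : ℕ} (h : k ≤ l) {P Q : X} (hQ : Q ∈ F.C k P) : Q ∈ F.C l P := by
  induction h with
  | refl => exact hQ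
  | step _ ih => exact Or.inl ih

theorem self_mem (k : ℕ) (P : X) : P ∈ F.C k P := C_mono (Nat.zero_le k) rfl

theorem C_trans {s i : ℕ} {P R Q : X} (hR : R ∈ F.C s P) (hQ : Q ∈ F.C i R) :
    Q ∈ F.C (s + i) P := by
  induction i generalizing Q with
  | zero => rw [mem_zero.mp hQ]; exact hR
  | succ i ih =>
    rcases mem_succ.mp hQ with h | ⟨h, U, hU, ha⟩
    · exact Or.inl (ih h)
    · exact Or.inr ⟨h, U, ih hU, ha⟩

theorem C_symm {k : ℕ} {P Q : X} (hP : P ∈ F.T) (h : Q ∈ F.C k P) : P ∈ F.C k Q := by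
  induction k generalizing Q with
  | zero => rw [mem_zero.mp h]; rfl
  | succ k ih =>
    rcases mem_succ.mp h with h | ⟨-, U, hU, ha⟩
    · exact Or.inl (ih h)
    · have h1 : U ∈ F.C 1 Q := Or.inr ⟨mem_T hP hU, Q, rfl, F.symm _ _ ha⟩
      have := C_trans h1 (ih hU)
      rwa [add_comm] at this

theorem Loc.mono {k l : ℕ} {g : G} {P : X} (h : F.Loc l g P) (hk : k ≤ l) : F.Loc k g P :=
  fun Q hQ => h Q (C_mono hk hQ)

theorem Loc.map {k s : ℕ} {g : G} {P Q : X} (h : F.Loc k g P) (hs : s ≤ k) (hQ : Q ∈ F.C s P) :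
    g • Q ∈ F.C s (g • P) := by
  induction s generalizing Q with
  | zero => rw [mem_zero.mp hQ]; rfl
  | succ s ih =>
    rcases mem_succ.mp hQ with h' | ⟨-, U, hU, ha⟩
    · exact Or.inl (ih (by omega) h')
    · exact Or.inr ⟨h Q (C_mono hs hQ), g • U, ih (by omega) hU, F.smul_adj g _ _ ha⟩

theorem Good.mono {k l : ℕ} {g : G} {P : X} (h : F.Good l g P) (hk : k ≤ l) : F.Good k g P :=
  ⟨h.1.mono hk, h.2.mono hk⟩

theorem Good.mem {k : ℕ} {g : G} {P : X} (h : F.Good k g P) : g • P ∈ F.T :=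
  h.1 P (self_mem k P)

theorem Good.shift {k s i : ℕ} {g : G} {P R : X} (h : F.Good k g P) (hk : s + i ≤ k)
    (hR : R ∈ F.C s P) : F.Good i g R :=
  ⟨fun Q hQ => h.1 Q (C_mono hk (C_trans hR hQ)),
    fun Q hQ => h.2 Q (C_mono hk (C_trans (h.1.map (by omega) hR) hQ))⟩

theorem Good.inv {k : ℕ} {g : G} {P : X} (h : F.Good k g P) : F.Good k g⁻¹ (g • P) :=
  ⟨h.2, by rw [inv_inv, inv_smul_smul]; exact h.1⟩

theorem Good.mul {k : ℕ} {g h : G} {P : X} (hg : F.Good k g P) (hh : F.Good k h (g • P)) :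
    F.Good k (h * g) P := by
  refine ⟨fun Q hQ => ?_, fun Q hQ => ?_⟩
  · rw [mul_smul]; exact hh.1 _ (hg.1.map le_rfl hQ)
  · rw [mul_smul] at hQ
    have := hh.2.map le_rfl hQ
    rw [inv_smul_smul] at this
    rw [mul_inv_rev, mul_smul]; exact hg.2 _ this

theorem good_one (k : ℕ) {P : X} (hP : P ∈ F.T) : F.Good k 1 P :=
  ⟨fun Q hQ => by rw [one_smul]; exact mem_T hP hQ,
    fun Q hQ => by rw [inv_one, one_smul]; rw [one_smul] at hQ; exact mem_T hP hQ⟩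

/-- The symmetries of `P` that keep its `k`-th corona. -/
def S (F : Fam G X) (k : ℕ) {P : X} (hP : P ∈ F.T) : Subgroup G where
  carrier := {g | g • P = P ∧ F.Good k g P}
  one_mem' := ⟨one_smul _ _, good_one k hP⟩
  mul_mem' := fun {a b} ha hb =>
    ⟨by rw [mul_smul, hb.1, ha.1], hb.2.mul (by rw [hb.1]; exact ha.2)⟩
  inv_mem' := fun {a} ha =>
    ⟨by rw [inv_smul_eq_iff, ha.1], by have := ha.2.inv; rwa [ha.1] at this⟩

theorem mem_S {k : ℕ} {P : X} {hP : P ∈ F.T} {g : G} :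
    g ∈ F.S k hP ↔ g • P = P ∧ F.Good k g P := Iff.rfl

theorem S_anti {k l : ℕ} (h : k ≤ l) {P : X} (hP : P ∈ F.T) : F.S l hP ≤ F.S k hP :=
  fun _ hg => ⟨hg.1, hg.2.mono h⟩

/-- The symmetry group of the family. -/
def Sym (F : Fam G X) : Subgroup G where
  carrier := {g | ∀ Q ∈ F.T, g • Q ∈ F.T ∧ g⁻¹ • Q ∈ F.T}
  one_mem' := fun Q hQ => by simpa using hQ
  mul_mem' := fun {a b} ha hb Q hQ => by
    rw [mul_inv_rev, mul_smul, mul_smul]
    exact ⟨(ha _ (hb Q hQ).1).1, (hb _ (ha Q hQ).2).2⟩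
  inv_mem' := fun {a} ha Q hQ => by rw [inv_inv]; exact (ha Q hQ).symm

theorem good_of_sym {g : G} (hg : g ∈ F.Sym) (k : ℕ) {P : X} (hP : P ∈ F.T) : F.Good k g P :=
  ⟨fun Q hQ => (hg Q (mem_T hP hQ)).1, fun Q hQ => (hg Q (mem_T (hg P hP).1 hQ)).2⟩

/-- The family is connected. -/
def Conn (F : Fam G X) : Prop := ∀ P ∈ F.T, ∀ Q ∈ F.T, ∃ k, Q ∈ F.C k P

/-- Condition (b). -/
def Hom (F : Fam G X) (k : ℕ) : Prop := ∀ P ∈ F.T, ∀ Q ∈ F.T, ∃ g : G, g • P = Q ∧ F.Good k g P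

theorem Conn.ind (h : F.Conn) {p : X → Prop} {P : X} (hP : P ∈ F.T) (h0 : p P)
    (hs : ∀ Y ∈ F.T, ∀ Q ∈ F.C 1 Y, p Y → p Q) : ∀ Q ∈ F.T, p Q := by
  intro Q hQ
  obtain ⟨k, hk⟩ := h P hP Q hQ
  induction k generalizing Q with
  | zero => rw [mem_zero.mp hk]; exact h0
  | succ k ih =>
    rcases mem_succ.mp hk with h' | ⟨-, U, hU, ha⟩
    · exact ih Q hQ h'
    · exact hs U (mem_T hP hU) Q (Or.inr ⟨hQ, U, rfl, ha⟩) (ih U (mem_T hP hU) hU)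

/-- The local criterion. -/
theorem local_crit (hc : F.Conn) {k : ℕ} (hb : F.Hom (k + 1)) {P0 : X} (h0 : P0 ∈ F.T)
    (hS : F.S k h0 ≤ F.S (k + 1) h0) : ∀ P ∈ F.T, ∀ Q ∈ F.T, ∃ g ∈ F.Sym, g • P = Q := by
  have up : ∀ Y ∈ F.T, ∀ g : G, F.Good k g Y → F.Good (k + 1) g Y := by
    intro Y hY g hg
    obtain ⟨a, ha, ha'⟩ := hb P0 h0 Y hY
    obtain ⟨b, hb1, hb'⟩ := hb P0 h0 _ hg.mem
    have h1 : F.Good k (g * a) P0 := (ha'.mono (Nat.le_succ k)).mul (by rw [ha]; exact hg)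
    have h2 : F.Good k (b⁻¹ * (g * a)) P0 := h1.mul (by
      have := (hb'.mono (Nat.le_succ k)).inv
      rwa [hb1, ← ha, ← mul_smul] at this)
    have h3 : (b⁻¹ * (g * a)) • P0 = P0 := by
      rw [mul_smul, mul_smul, ha, ← hb1, inv_smul_smul]
    have h4 := (hS ⟨h3, h2⟩).2
    have h5 : F.Good (k + 1) (b * (b⁻¹ * (g * a))) P0 := h4.mul (by rw [h3]; exact hb')
    have h6 := ha'.inv
    have h7 := h6.mul (h := b * (b⁻¹ * (g * a))) (by rw [inv_smul_smul]; exact h5)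
    rw [ha] at h7
    simpa using h7
  have all : ∀ P ∈ F.T, ∀ g : G, F.Good k g P → ∀ Q ∈ F.T, g • Q ∈ F.T := fun P hP g hg Q hQ =>
    (hc.ind (p := fun Y => F.Good k g Y) hP hg
      (fun Y hY R hR h => (up Y hY g h).shift (by omega) hR) Q hQ).mem
  intro P hP Q hQ
  obtain ⟨g, h1, h2⟩ := hb P hP Q hQ
  have h3 := h2.mono (Nat.le_succ k)
  exact ⟨g, fun R hR => ⟨all P hP g h3 R hR, all _ h3.mem _ h3.inv R hR⟩, h1⟩

/-- The stall lemma. -/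
theorem stall (hc : F.Conn) {L : Type*} [PartialOrder L] (φ : ℕ → X → L) (μ : L → ℕ) {s : ℕ}
    {P0 : X} (h0 : P0 ∈ F.T) (hm : ∀ Y ∈ F.T, ∀ Q ∈ F.C 1 Y, φ s Q ≤ φ (s + 1) Y)
    (h1 : ∀ Y ∈ F.T, μ (φ s Y) = μ (φ s P0)) (h2 : ∀ Y ∈ F.T, μ (φ (s + 1) Y) = μ (φ (s + 1) P0))
    (h3 : ∀ Y ∈ F.T, ∀ x ≤ φ (s + 1) Y, μ x = μ (φ (s + 1) Y) → x = φ (s + 1) Y)
    (h4 : μ (φ s P0) = μ (φ (s + 1) P0)) :
    ∀ Y ∈ F.T, φ s Y = φ s P0 ∧ φ (s + 1) Y = φ s P0 := by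
  have key : ∀ Y ∈ F.T, ∀ Q ∈ F.C 1 Y, φ s Q = φ (s + 1) Y := fun Y hY Q hQ =>
    h3 Y hY _ (hm Y hY Q hQ) (by rw [h1 Q (mem_T hY hQ), h4, h2 Y hY])
  have a : ∀ Y ∈ F.T, φ s Y = φ s P0 :=
    hc.ind (p := fun Y => φ s Y = φ s P0) h0 rfl fun Y hY Q hQ h => by
      rw [key Y hY Q hQ, ← key Y hY Y (self_mem 1 Y), h]
  exact fun Y hY => ⟨a Y hY, by rw [← key Y hY Y (self_mem 1 Y), a Y hY]⟩

end Fam

/-- A bounded monotone sequence stalls. -/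
theorem exists_stall (f : ℕ → ℕ) (N : ℕ) (hm : ∀ s ≤ N, f s ≤ f (s + 1)) (hN : f (N + 1) ≤ N) :
    ∃ s ≤ N, f s = f (s + 1) := by
  by_contra h
  push Not at h
  have : ∀ s ≤ N + 1, s ≤ f s := by
    intro s
    induction s with
    | zero => simp
    | succ s ih =>
      intro hs
      have h1 := ih (by omega)
      have h2 := hm s (by omega)
      have h3 := h s (by omega)
      omega
  have := this (N + 1) le_rfl
  omega

end Pool.Agent.Lib.MP_6d95fe_co.H35
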