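import Mathlib

/-!
Rank descent in a finite abelian group.
-/

namespace Pool.Agent.Lib.MP_6d95fe_co.H35

namespace Desc

open Subgroup

variable {Q Q' : Type*} [CommGroup Q] [CommGroup Q'] [Finite Q]

/-- the elements of `W` killed by `v` -/
def tor (W : Subgroup Q) (v : ℕ) : Subgroup Q := W ⊓ (powMonoidHom v).ker

/-- the `v`-th powers of the elements of `W` -/
def pw (W : Subgroup Q) (v : ℕ) : Subgroup Q := W.map (powMonoidHom v)

/-- rank at most `k` -/
def Rk (W : Subgroup Q) (k : ℕ) : Prop := ∀ v, 0 < v → Nat.card (tor W v) ≤ v ^ k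

omit [Finite Q] in
lemma mem_tor {W : Subgroup Q} {v : ℕ} {x : Q} : x ∈ tor W v ↔ x ∈ W ∧ x ^ v = 1 := by
  simp [tor, MonoidHom.mem_ker]

omit [Finite Q] in
lemma mem_pw {W : Subgroup Q} {v : ℕ} {x : Q} : x ∈ pw W v ↔ ∃ y ∈ W, y ^ v = x := by
  simp [pw]

omit [Finite Q] in
lemma card_map (W : Subgroup Q) (f : Q →* Q') :
    Nat.card W = Nat.card (W ⊓ f.ker : Subgroup Q) * Nat.card (W.map f) := by
  rw [← Subgroup.relIndex_ker, ← Subgroup.inf_relIndex_right, inf_comm,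
    ← Nat.card_congr (Subgroup.subgroupOfEquivOfLe (inf_le_right : f.ker ⊓ W ≤ W)).toEquiv]
  exact (Subgroup.card_mul_index _).symm

omit [Finite Q] in
lemma card_tor (W : Subgroup Q) (v : ℕ) :
    Nat.card W = Nat.card (tor W v) * Nat.card (pw W v) := card_map W _

omit [Finite Q] in
lemma pw_pw (W : Subgroup Q) (u v : ℕ) : pw (pw W u) v = pw W (u * v) := by
  ext x
  simp only [mem_pw, pow_mul]
  exact ⟨fun ⟨_, ⟨y, hy, e⟩, e'⟩ => ⟨y, hy, e ▸ e'⟩, fun ⟨y, hy, e⟩ => ⟨_, ⟨y, hy, rfl⟩, e⟩⟩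

omit [Finite Q] in
lemma pw_map (W : Subgroup Q) (f : Q →* Q') (v : ℕ) : (pw W v).map f = pw (W.map f) v := by
  ext x
  simp only [mem_pw, mem_map]
  constructor
  · rintro ⟨_, ⟨y, hy, rfl⟩, rfl⟩
    exact ⟨_, ⟨y, hy, rfl⟩, (map_pow f y v).symm⟩
  · rintro ⟨_, ⟨y, hy, rfl⟩, rfl⟩
    exact ⟨_, ⟨y, hy, rfl⟩, map_pow f y v⟩

omit [Finite Q] in
lemma pw_le (W : Subgroup Q) (v : ℕ) : pw W v ≤ W := by
  intro x hx
  obtain ⟨y, hy, rfl⟩ := mem_pw.1 hx
  exact pow_mem hy v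

omit [Finite Q] in
lemma card_tor_mul (Y : Subgroup Q) (v l : ℕ) :
    Nat.card (tor Y (v * l)) = Nat.card (tor Y v) * Nat.card (tor (pw Y v) l) := by
  rw [card_tor (tor Y (v * l)) v]
  congr 2
  · congr 1
    ext x
    simp only [mem_tor]
    exact ⟨fun h => ⟨h.1.1, h.2⟩, fun h => ⟨⟨h.1, by rw [pow_mul, h.2, one_pow]⟩, h.2⟩⟩
  · congr 1
    ext x
    simp only [mem_tor, mem_pw, pow_mul]
    exact ⟨fun ⟨y, hy, e⟩ => ⟨⟨y, hy.1, e⟩, e ▸ hy.2⟩,
      fun ⟨⟨y, hy, e⟩, h⟩ => ⟨y, ⟨hy, e ▸ h⟩, e⟩⟩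

lemma tor_mono {W W' : Subgroup Q} (h : W ≤ W') (v : ℕ) :
    Nat.card (tor W v) ≤ Nat.card (tor W' v) :=
  card_le_of_le (inf_le_inf_right _ h)

lemma Rk.mono {W W' : Subgroup Q} {k : ℕ} (h : Rk W' k) (hW : W ≤ W') : Rk W k :=
  fun v hv => (tor_mono hW v).trans (h v hv)

lemma Rk.map {W : Subgroup Q} {k : ℕ} (h : Rk W k) (f : Q →* Q') : Rk (W.map f) k := by
  intro v hv
  refine le_trans ?_ (h v hv)
  have a1 := card_map W f
  have a2 := card_map (pw W v) f
  have a3 := card_tor W v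
  have a4 := card_tor (W.map f) v
  rw [pw_map] at a2
  have a5 : Nat.card (pw W v ⊓ f.ker : Subgroup Q) ≤ Nat.card (W ⊓ f.ker : Subgroup Q) :=
    card_le_of_le (inf_le_inf_right _ (pw_le W v))
  have p1 : 0 < Nat.card (W ⊓ f.ker : Subgroup Q) := Nat.card_pos
  have p2 : 0 < Nat.card (pw (W.map f) v) := by
    have : 0 < Nat.card (pw W v) := Nat.card_pos
    rw [a2] at this
    exact Nat.pos_of_mul_pos_left this
  rw [a4, a3, a2] at a1
  refine Nat.le_of_mul_le_mul_right (c := Nat.card (W ⊓ f.ker : Subgroup Q) *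
    Nat.card (pw (W.map f) v)) ?_ (Nat.mul_pos p1 p2)
  calc _ = Nat.card (W ⊓ f.ker : Subgroup Q) *
        (Nat.card (tor (W.map f) v) * Nat.card (pw (W.map f) v)) := by ring
    _ = _ := a1.symm
    _ ≤ _ := by gcongr

lemma rk_of_prime {k : ℕ} (W : Subgroup Q)
    (h : ∀ l, l.Prime → Nat.card (tor W l) ≤ l ^ k) : Rk W k := by
  intro v hv
  induction v using Nat.recOnMul with
  | zero => omega
  | one =>
    have : tor W 1 = ⊥ := by
      ext x
      simp only [mem_tor, pow_one, mem_bot]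
      exact ⟨fun h => h.2, fun h => ⟨h ▸ W.one_mem, h⟩⟩
    simp [this]
  | prime p hp => exact h p hp
  | mul a b ha hb =>
    rw [card_tor_mul, mul_pow]
    exact Nat.mul_le_mul (ha (Nat.pos_of_mul_pos_right hv))
      ((tor_mono (pw_le W a) b).trans (hb (Nat.pos_of_mul_pos_left hv)))

lemma step {W Y : Subgroup Q} {k : ℕ} (h : Rk W (k + 1)) (hY : Y ≤ W) :
    ∃ v, 0 < v ∧ tor W v ≤ Y ∧ Nat.card (tor W v) = v ^ (k + 1) ∧ Rk (pw Y v) k := by
  classical
  let P : ℕ → Prop := fun v => 0 < v ∧ Nat.card (tor Y v) = v ^ (k + 1)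
  have bd : ∀ v, P v → v ≤ Nat.card Q := fun v hv =>
    (Nat.le_self_pow (Nat.succ_ne_zero k) v).trans (hv.2 ▸ card_le_card_group _)
  have one : P 1 := ⟨one_pos, le_antisymm (h.mono hY 1 one_pos) (by
    rw [one_pow]; exact Nat.card_pos)⟩
  have hv : P (Nat.findGreatest P (Nat.card Q)) := Nat.findGreatest_spec (bd 1 one) one
  have mx : ∀ w, P w → w ≤ Nat.findGreatest P (Nat.card Q) := fun w hw =>
    Nat.le_findGreatest (bd w hw) hw
  generalize Nat.findGreatest P (Nat.card Q) = v at hv mx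
  have e : tor Y v = tor W v :=
    eq_of_le_of_card_ge (inf_le_inf_right _ hY) (hv.2 ▸ h v hv.1)
  refine ⟨v, hv.1, e ▸ inf_le_left, e ▸ hv.2, rk_of_prime _ fun l hl => ?_⟩
  have := Fact.mk hl
  have pg : IsPGroup l (tor (pw Y v) l) := fun x =>
    ⟨1, Subtype.ext (by rw [pow_one]; exact (mem_tor.1 x.2).2)⟩
  obtain ⟨m, hm⟩ := IsPGroup.iff_card.1 pg
  have le : l ^ m ≤ l ^ (k + 1) := hm ▸ (h.mono ((pw_le Y v).trans hY)) l hl.pos
  rw [hm]
  refine Nat.pow_le_pow_right hl.pos ?_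
  by_contra c
  have em : m = k + 1 := le_antisymm ((Nat.pow_le_pow_iff_right hl.one_lt).1 le) (by omega)
  have := mx (v * l) ⟨Nat.mul_pos hv.1 hl.pos, by rw [card_tor_mul, hv.2, hm, em, mul_pow]⟩
  have := hl.two_le
  nlinarith [hv.1]

/-- Descent: `B` decreases, `Z` increases, and every canonical subgroup between `Z t` and
`B (t + 1)` has index at most `β` over `Z t`. -/
theorem desc {N β : ℕ} (B Z : ℕ → Subgroup Q)
    (hB : ∀ t, B (t + 1) ≤ B t) (hZ : ∀ t, Z t ≤ Z (t + 1)) (hZB : ∀ s t, Z s ≤ B t)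
    (rk : Rk (B 0) N)
    (H : ∀ t < N, ∀ D : Subgroup Q, Z t ≤ D → D ≤ B (t + 1) →
      (∃ u v : ℕ, ∀ x, x ∈ D ↔ (∃ y ∈ B t, (y ^ u)⁻¹ * x ∈ Z t) ∧ x ^ v ∈ Z t) →
      (Z t).relIndex D ≤ β) :
    (Z N).relIndex (B N) ≤ β ^ N := by
  have aB' : Antitone B := antitone_nat_of_succ_le hB
  have mZ : Monotone Z := monotone_nat_of_le_succ hZ
  have idx : ∀ (Z D : Subgroup Q), Z.relIndex D = Nat.card (D.map (QuotientGroup.mk' Z)) := by
    intro Z D
    rw [← Subgroup.relIndex_ker, QuotientGroup.ker_mk']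
  let π : ∀ {s t : ℕ}, s ≤ t → (Q ⧸ Z s →* Q ⧸ Z t) := fun h =>
    QuotientGroup.map _ _ (MonoidHom.id Q) (mZ h)
  have hπ : ∀ {s t : ℕ} (h : s ≤ t) (D : Subgroup Q),
      (D.map (QuotientGroup.mk' (Z s))).map (π h) = D.map (QuotientGroup.mk' (Z t)) := by
    intro s t h D
    rw [map_map]
    rfl
  have key : ∀ t ≤ N, ∃ u, Rk (pw ((B t).map (QuotientGroup.mk' (Z t))) u) (N - t) ∧
      Nat.card ((B N).map (QuotientGroup.mk' (Z N))) ≤
        β ^ t * Nat.card (pw ((B N).map (QuotientGroup.mk' (Z N))) u) := by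
    intro t
    induction t with
    | zero =>
      refine fun _ => ⟨1, (rk.map _).mono (pw_le _ _), ?_⟩
      rw [pow_zero, one_mul]
      exact card_le_of_le fun x hx => mem_pw.2 ⟨x, hx, pow_one x⟩
    | succ t ih =>
      intro ht
      obtain ⟨u, r, c⟩ := ih (by omega)
      have e : N - t = N - (t + 1) + 1 := by omega
      rw [e] at r
      have sub : ∀ s, t ≤ s → pw ((B s).map (QuotientGroup.mk' (Z t))) u ≤
          pw ((B t).map (QuotientGroup.mk' (Z t))) u := fun s hs => map_mono (map_mono (aB' hs))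
      obtain ⟨v, v0, v1, v2, v3⟩ := step r (sub (t + 1) (by omega))
      have vb : v ^ (N - (t + 1) + 1) ≤ β := by
        have := H t (by omega) ((tor (pw ((B t).map (QuotientGroup.mk' (Z t))) u) v).comap
          (QuotientGroup.mk' (Z t))) ?_ ?_ ?_
        · rwa [idx, map_comap_eq_self_of_surjective (QuotientGroup.mk'_surjective _), v2] at this
        · exact le_trans (QuotientGroup.ker_mk' _).ge (ker_le_comap _ _)
        · refine (comap_mono (v1.trans (pw_le _ _))).trans ?_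
          rw [comap_map_eq, QuotientGroup.ker_mk']
          exact sup_le le_rfl (hZB _ _)
        · refine ⟨u, v, fun x => ?_⟩
          rw [mem_comap, mem_tor, mem_pw, ← map_pow, QuotientGroup.mk'_apply,
            QuotientGroup.mk'_apply, QuotientGroup.eq_one_iff]
          refine and_congr_left' ⟨?_, ?_⟩
          · rintro ⟨_, ⟨y, hy, rfl⟩, e1⟩
            exact ⟨y, hy, QuotientGroup.eq.1 e1⟩
          · rintro ⟨y, hy, e1⟩
            exact ⟨_, ⟨y, hy, rfl⟩, QuotientGroup.eq.2 e1⟩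
      refine ⟨u * v, ?_, c.trans ?_⟩
      · have := v3.map (π (Nat.le_succ t))
        rwa [pw_pw, pw_map, hπ (Nat.le_succ t)] at this
      · have := (r.mono (sub N (by omega))).map (π (show t ≤ N by omega))
        rw [pw_map, hπ (show t ≤ N by omega)] at this
        rw [card_tor (pw _ u) v, pw_pw, pow_succ, mul_assoc]
        exact Nat.mul_le_mul_left _ (Nat.mul_le_mul_right _ ((this v v0).trans vb))
  obtain ⟨u, r, c⟩ := key N le_rfl
  rw [idx]
  refine c.trans ?_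
  have e : tor (pw ((B N).map (QuotientGroup.mk' (Z N))) u) (Nat.card (Q ⧸ Z N)) =
      pw ((B N).map (QuotientGroup.mk' (Z N))) u :=
    inf_eq_left.2 fun x _ => by simp [MonoidHom.mem_ker, pow_card_eq_one']
  have := r _ (Nat.card_pos (α := Q ⧸ Z N))
  rw [e, Nat.sub_self, pow_zero] at this
  exact (Nat.mul_le_mul_left _ this).trans (mul_one _).le

/-- A decreasing chain above `I` whose term `G s` has index below `2 ^ (m + 1)` over `I` stalls. -/
lemma stall {H : Type*} [Group H] (G : ℕ → Subgroup H) (I : Subgroup H) (s m : ℕ)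
    (anti : ∀ j, G (j + 1) ≤ G j) [Finite (G s)] (hI : ∀ j, I ≤ G j)
    (h : I.relIndex (G s) < 2 ^ (m + 1)) : ∃ k, s ≤ k ∧ k ≤ s + m ∧ G (k + 1) = G k := by
  by_contra c
  push Not at c
  have an : Antitone G := antitone_nat_of_succ_le anti
  have nz : ∀ (A : Subgroup H) j, A.relIndex (G (s + j)) ≠ 0 := fun A j =>
    have : Finite (G (s + j)) := Finite.of_injective _ (inclusion_injective (an le_self_add))
    Subgroup.index_ne_zero_of_finite
  have key : ∀ j ≤ m + 1, 2 ^ j * I.relIndex (G (s + j)) ≤ I.relIndex (G s) := by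
    intro j
    induction j with
    | zero => simp
    | succ j ih =>
      intro hj
      refine le_trans ?_ (ih (by omega))
      rw [← relIndex_mul_relIndex I (G (s + j + 1)) (G (s + j)) (hI _) (anti _), pow_succ,
        mul_assoc, mul_comm 2]
      refine Nat.mul_le_mul_left _ (Nat.mul_le_mul_left _ ?_)
      have h0 := nz (G (s + j + 1)) j
      have h1 : (G (s + j + 1)).relIndex (G (s + j)) ≠ 1 := fun e =>
        c (s + j) (by omega) (by omega) (le_antisymm (anti _) (relIndex_eq_one.1 e))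
      omega
  have := key (m + 1) le_rfl
  have := Nat.pos_of_ne_zero (nz I (m + 1))
  nlinarith

end Desc

open Subgroup in
theorem descent {G : Type*} [Group G] (N β : ℕ) (B Z : ℕ → Subgroup G) [Finite (B 0)]
    (hc : ∀ a ∈ B 0, ∀ b ∈ B 0, Commute a b)
    (hB : ∀ t, B (t + 1) ≤ B t) (hZ : ∀ t, Z t ≤ Z (t + 1)) (hZB : ∀ t s, Z t ≤ B s)
    (hrk : ∀ v : ℕ, 0 < v → Nat.card {x : B 0 // x ^ v = 1} ≤ v ^ N)
    (hinv : ∀ t < N, ∀ D : Subgroup G, Z t ≤ D → D ≤ B (t + 1) →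
      (∀ g : G, (∀ x ∈ B t, g * x * g⁻¹ ∈ B t) → (∀ x ∈ Z t, g * x * g⁻¹ ∈ Z t) →
        ∀ x ∈ D, g * x * g⁻¹ ∈ D) → (Z t).relIndex D ≤ β) :
    (Z N).relIndex (B N) ≤ β ^ N := by
  have an : ∀ t, B t ≤ B 0 := fun t => antitone_nat_of_succ_le hB (Nat.zero_le t)
  let _ : CommGroup (B 0) := { (inferInstance : Group (B 0)) with
    mul_comm := fun x y => Subtype.ext (hc _ x.2 _ y.2).eq }
  have main := Desc.desc (N := N) (β := β) (fun t => (B t).subgroupOf (B 0))
    (fun t => (Z t).subgroupOf (B 0)) (fun t _ hx => hB t hx) (fun t _ hx => hZ t hx)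
    (fun s t _ hx => hZB s t hx) ?_ ?_
  · rwa [relIndex_subgroupOf (an N)] at main
  · intro v hv
    exact le_trans (Nat.card_le_card_of_injective
      (fun x => (⟨x.1, (Desc.mem_tor.1 x.2).2⟩ : {x : B 0 // x ^ v = 1}))
      fun x y h => Subtype.ext (congrArg (fun z : {x : B 0 // x ^ v = 1} => z.1) h)) (hrk v hv)
  · rintro t ht D h1 h2 ⟨u, v, e⟩
    have em : ((Z t).subgroupOf (B 0)).map (B 0).subtype = Z t :=
      map_subgroupOf_eq_of_le (hZB t 0)
    rw [← relIndex_map_map_of_injective _ _ (B 0).subtype_injective, em]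
    refine hinv t ht _ (em.ge.trans (map_mono h1)) ?_ ?_
    · rintro _ ⟨x, hx, rfl⟩
      exact h2 hx
    · rintro g gB gZ _ ⟨x, hx, rfl⟩
      obtain ⟨⟨y, hy, e1⟩, e2⟩ := (e x).1 hx
      refine ⟨⟨_, an t (gB x (hB t (h2 hx)))⟩, (e _).2 ⟨⟨⟨_, an t (gB y hy)⟩, gB y hy, ?_⟩, ?_⟩, rfl⟩
      · have := gZ _ e1
        simp only [mem_subgroupOf, coe_mul, coe_inv, coe_pow, conj_pow] at this ⊢
        simpa [mul_assoc] using this
      · have := gZ _ e2
        simpa [mem_subgroupOf] using this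

end Pool.Agent.Lib.MP_6d95fe_co.H35
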