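import Pool.Agent.Lib.MP_6d95fe_co.H35.Global
import Pool.Agent.Lib.MP_6d95fe_co.H35.Desc

/-! The chain of corona groups stops after quadratically many steps. -/

namespace Pool.Agent.Lib.MP_6d95fe_co.H35

open Pool.Agent.Lib.MP_6d95fe_co.Del
open scoped RealInnerProductSpace

theorem chain_rel {G : Type*} [Group G] (H : ℕ → Subgroup G) (hH : ∀ k, H (k + 1) ≤ H k)
    (Z : Subgroup G) (hZ : ∀ k, Z ≤ H k) (h0 : Z.relIndex (H 0) ≠ 0) (m : ℕ)
    (hm : Z.relIndex (H 0) < 2 ^ m) : ∃ k < m, H k ≤ H (k + 1) := by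
  by_contra hn
  push Not at hn
  have key : ∀ k ≤ m, Z.relIndex (H k) ≠ 0 ∧ 2 ^ k * Z.relIndex (H k) ≤ Z.relIndex (H 0) := by
    intro k
    induction k with
    | zero => simpa using h0
    | succ k ih =>
      intro hk
      obtain ⟨h1, h2⟩ := ih (by omega)
      have h3 := Subgroup.relIndex_mul_relIndex Z (H (k + 1)) (H k) (hZ _) (hH k)
      have h4 : (H (k + 1)).relIndex (H k) ≠ 1 := fun h =>
        hn k (by omega) (Subgroup.relIndex_eq_one.mp h)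
      rw [← h3] at h1 h2
      obtain ⟨h5, h6⟩ := mul_ne_zero_iff.mp h1
      refine ⟨h5, le_trans ?_ h2⟩
      rw [pow_succ, mul_assoc, mul_comm 2]
      exact Nat.mul_le_mul_left _ (Nat.mul_le_mul_left _ (by omega))
  obtain ⟨h1, h2⟩ := key m le_rfl
  have := Nat.le_mul_of_pos_right (2 ^ m) (Nat.pos_of_ne_zero h1)
  omega

variable {E : Type*} [NormedAddCommGroup E] [InnerProductSpace ℝ E] [FiniteDimensional ℝ E]
  {X : Type*} [MulAction (E ≃ᵢ E) X]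

theorem core (F : Fam (E ≃ᵢ E) X) (j K : ℕ)
    (hK : j + 7 * Module.finrank ℝ E ^ 2 + 2 * Module.finrank ℝ E + 1 ≤ K) (hc : F.Conn)
    (hb : F.Hom K)
    (hd : ∀ Y ∈ F.T, ∃ y : E, ∀ ρ : ℝ, {g | F.Good j g Y ∧ dist (g y) y ≤ ρ}.Finite)
    (hf : ∀ Y ∈ F.T, {g | g • Y = Y ∧ F.Good j g Y}.Finite) :
    ∀ P ∈ F.T, ∀ Q ∈ F.T, ∃ g ∈ F.Sym, g • P = Q := by
  intro P hP
  obtain ⟨N, hN⟩ : ∃ N, N = Module.finrank ℝ E := ⟨_, rfl⟩
  rw [← hN] at hK
  let G : ℕ → Subgroup (E ≃ᵢ E) := fun t => F.S (j + t * (2 * N + 2)) hP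
  have hG : ∀ s t, s ≤ t → G t ≤ G s := fun s t h =>
    Fam.S_anti (Nat.add_le_add_left (Nat.mul_le_mul_right _ h) _) hP
  have hG0 : (G 0 : Set (E ≃ᵢ E)).Finite := (hf P hP).subset fun g hg => ⟨hg.1, hg.2.mono (by omega)⟩
  have fin0 : Finite (G 0) := hG0
  have fin : ∀ U : Subgroup (E ≃ᵢ E), U ≤ G 0 → Finite U := fun U hU =>
    Finite.of_injective _ (Subgroup.inclusion_injective hU)
  have he : ∀ d ∈ G 0, d ^ Nat.card (G 0) = 1 := fun d hd =>
    congrArg Subtype.val (pow_card_eq_one' (x := (⟨d, hd⟩ : G 0)))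
  let L : Subgroup (E ≃ᵢ E) := Subgroup.closure {x | x ∈ G 0 ∧ ‖lin x - 1‖ < 1 / 2}
  have hL0 : L ≤ G 0 := (Subgroup.closure_le _).2 fun _ h => h.1
  have hLc : ∀ a ∈ L, ∀ b ∈ L, Commute a b :=
    (closure_comm_pow (e := Nat.card (G 0)) (fun a ha b hb => by
      obtain ⟨z, hz⟩ := exists_fix Nat.card_pos (he b hb.1)
      exact commute_of_discrete (G 0) 0 (fun ρ => hG0.subset fun g hg => hg.1) ha.1 hb.1 ha.2 hb.2
        hz) fun a ha => he a ha.1).1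
  have hLn : ∀ g ∈ G 0, ∀ a ∈ L, g * a * g⁻¹ ∈ L := fun g hg =>
    conj_closure g fun a ha => Subgroup.subset_closure
      ⟨(G 0).mul_mem ((G 0).mul_mem hg ha.1) ((G 0).inv_mem hg),
        (norm_lin_conj g a).trans_lt ha.2⟩
  let I : Subgroup (E ≃ᵢ E) := F.Sym ⊓ MulAction.stabilizer _ P
  have hI : ∀ k, I ≤ F.S k hP := fun k g hg => ⟨hg.2, Fam.good_of_sym hg.1 k hP⟩
  let B : ℕ → Subgroup (E ≃ᵢ E) := fun t => L ⊓ G t
  obtain ⟨Z, hZ⟩ : ∃ Z : ℕ → Subgroup (E ≃ᵢ E),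
      ∀ t x, x ∈ Z t ↔ x ∈ L ∧ ∀ g ∈ G t, g * x * g⁻¹ ∈ I :=
    ⟨fun t => L ⊓ ⨅ g : G t, I.comap (MulAut.conj (g : E ≃ᵢ E)).toMonoidHom, fun t x => by
      simp [Subgroup.mem_iInf]⟩
  have hZI : ∀ t, Z t ≤ I := fun t x hx => by simpa using ((hZ t x).1 hx).2 1 (G t).one_mem
  have finB := fin (B 0) inf_le_right
  have h1 : (Z N).relIndex (B N) ≤ (5 ^ N) ^ N := by
    refine descent N (5 ^ N) B Z (fun a ha b hb => hLc a ha.1 b hb.1)
      (fun t => inf_le_inf_left _ (hG _ _ (Nat.le_succ t)))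
      (fun t x hx => (hZ _ x).2 ⟨((hZ t x).1 hx).1, fun g hg =>
        ((hZ t x).1 hx).2 g (hG _ _ (Nat.le_succ t) hg)⟩)
      (fun t s x hx => ⟨((hZ t x).1 hx).1, hI _ (hZI t hx)⟩)
      (fun v hv => hN ▸ card_torsion_le (B 0) (fun a ha b hb => hLc a ha.1 b hb.1) v hv)
      fun t ht D _ hD hn => ?_
    have hn' : ∀ g ∈ G t, ∀ x ∈ D, g * x * g⁻¹ ∈ D := fun g hg =>
      hn g (fun x hx => ⟨hLn g (hG _ _ (Nat.zero_le t) hg) x hx.1,
          (G t).mul_mem ((G t).mul_mem hg hx.2) ((G t).inv_mem hg)⟩)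
        fun x hx => (hZ t _).2 ⟨hLn g (hG _ _ (Nat.zero_le t) hg) x ((hZ t x).1 hx).1,
          fun g' hg' => by
            have := ((hZ t x).1 hx).2 _ ((G t).mul_mem hg' hg)
            rwa [mul_inv_rev, mul_assoc g', mul_assoc g', ← mul_assoc (g * x), ← mul_assoc g']
              at this⟩
    have hD0 : D ≤ G 0 := fun x hx => hL0 (hD hx).1
    have := fin D hD0
    have hle : (t + 1) * (2 * N + 2) ≤ N * (2 * N + 2) := Nat.mul_le_mul_right _ ht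
    let c : Ctx F :=
      { P0 := P, h0 := hP, D := D, i := j + t * (2 * N + 2), j := j + (t + 1) * (2 * N + 2)
        K := K, e := Nat.card (G 0), conn := hc, hom := hb, hD := fun x hx => (hD hx).2
        hn := hn', hij := by rw [← hN]; nlinarith
        hjK := by nlinarith
        disc := fun Y hY => (hd Y hY).imp fun y hy ρ =>
          (hy ρ).subset fun g hg => ⟨hg.1.mono (by omega), hg.2⟩
        e_pos := Nat.card_pos, he := fun d hd => he d (hD0 hd) }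
    rw [hN]
    refine relIndex_le_comm _ D (fun a ha b hb => hLc a (hD ha).1 b (hD hb).1) fun a ha hs => ?_
    exact (hZ t a).2 ⟨(hD ha).1, fun g hg =>
      ⟨c.global (hn' g hg a ha) ((norm_lin_conj g a).trans_lt hs), (hD (hn' g hg a ha)).2.1⟩⟩
  have finN := fin (G N) (hG _ _ (Nat.zero_le N))
  have h2 : L.relIndex (G N) ≤ 5 ^ (N ^ 2) := by
    have := relIndex_le L (G N) fun a ha hs =>
      Subgroup.subset_closure ⟨hG _ _ (Nat.zero_le _) ha, hs⟩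
    rwa [← hN] at this
  have h3 := Subgroup.relIndex_mul_relIndex (Z N) (B N) (G N)
    (fun x hx => ⟨((hZ N x).1 hx).1, hI _ (hZI N hx)⟩) inf_le_right
  have h4 : (B N).relIndex (G N) = L.relIndex (G N) := Subgroup.inf_relIndex_right _ _
  have h5 : (Z N).relIndex (G N) ≠ 0 := Subgroup.index_ne_zero_of_finite
  have h6 : I.relIndex (G N) ≤ (Z N).relIndex (G N) :=
    Subgroup.relIndex_le_of_le_left (hZI N) h5
  have h7 : I.relIndex (G N) < 2 ^ (5 * N ^ 2 + 1) := by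
    have a1 : (5 ^ N) ^ N * 5 ^ (N ^ 2) = 25 ^ (N ^ 2) := by
      rw [← pow_mul, ← pow_two, ← mul_pow]; norm_num
    have a2 : 25 ^ (N ^ 2) ≤ 32 ^ (N ^ 2) := Nat.pow_le_pow_left (by norm_num) _
    have a3 : 2 ^ (5 * N ^ 2 + 1) = 32 ^ (N ^ 2) * 2 := by rw [pow_succ, pow_mul]; norm_num
    have a4 : 0 < 32 ^ (N ^ 2) := by positivity
    have a5 := Nat.mul_le_mul h1 (h4.le.trans h2)
    omega
  obtain ⟨k, hk, h8⟩ := chain_rel (fun k => F.S (j + N * (2 * N + 2) + k) hP)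
    (fun k => Fam.S_anti (by omega) hP) I (fun k => hI _) Subgroup.index_ne_zero_of_finite _ h7
  refine Fam.local_crit hc (k := j + N * (2 * N + 2) + k) (fun A hA A' hA' => ?_) hP h8 P hP
  exact (hb A hA A' hA').imp fun g hg => ⟨hg.1, hg.2.mono (by nlinarith)⟩

/-- The version with equivariant centres. -/
theorem core_pos (F : Fam (E ≃ᵢ E) X) (pos : X → E) (D : ℝ) (K : ℕ)
    (hK : 7 * Module.finrank ℝ E ^ 2 + 3 * Module.finrank ℝ E + 1 ≤ K) (hc : F.Conn)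
    (hb : F.Hom K) (hp : ∀ g : E ≃ᵢ E, ∀ P ∈ F.T, pos (g • P) = g (pos P))
    (hD : ∀ P ∈ F.T, ∀ Q ∈ F.T, F.adj P Q → dist (pos Q) (pos P) ≤ D)
    (hlf : ∀ x ρ, {P | P ∈ F.T ∧ dist (pos P) x ≤ ρ}.Finite)
    (hsp : ∀ u : E, u ≠ 0 → ∃ P ∈ F.T, ∃ Q ∈ F.T, ⟪u, pos P - pos Q⟫ ≠ 0) :
    ∀ P ∈ F.T, ∀ Q ∈ F.T, ∃ g ∈ F.Sym, g • P = Q := by
  intro P0 h0
  obtain ⟨N, hN⟩ : ∃ N, N = Module.finrank ℝ E := ⟨_, rfl⟩
  have hNK : N + 1 ≤ K := by rw [← hN] at hK; omega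
  let φ : ℕ → X → Submodule ℝ E := fun s Y =>
    Submodule.span ℝ {v | ∃ A ∈ F.C s Y, ∃ B ∈ F.C s Y, v = pos A - pos B}
  have hmono : ∀ s t u, t + s ≤ u → ∀ Y, ∀ Q ∈ F.C t Y, φ s Q ≤ φ u Y := fun s t u h Y Q hQ =>
    Submodule.span_mono fun _ ⟨A, hA, B, hB, e⟩ =>
      ⟨A, Fam.C_mono h (Fam.C_trans hQ hA), B, Fam.C_mono h (Fam.C_trans hQ hB), e⟩
  have hle : ∀ s ≤ N + 1, ∀ Y ∈ F.T, ∀ Q ∈ F.T,
      Module.finrank ℝ (φ s Y) ≤ Module.finrank ℝ (φ s Q) := fun s hs Y hY Q hQ => by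
    obtain ⟨γ, rfl, hγ⟩ := hb Q hQ Y hY
    refine le_trans (Submodule.finrank_mono ?_)
      (Submodule.finrank_map_le (lin γ : E →ₗ[ℝ] E) (φ s Q))
    rw [Submodule.span_le]
    rintro _ ⟨A, hA, B, hB, rfl⟩
    have hA' := hγ.2.map (hs.trans hNK) hA
    have hB' := hγ.2.map (hs.trans hNK) hB
    rw [inv_smul_smul] at hA' hB'
    refine ⟨_, Submodule.subset_span ⟨_, hA', _, hB', rfl⟩, ?_⟩
    rw [ContinuousLinearMap.coe_coe, lin_sub, ← hp _ _ (Fam.mem_T hQ hA'),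
      ← hp _ _ (Fam.mem_T hQ hB'), smul_inv_smul, smul_inv_smul]
  obtain ⟨s, hs, h4⟩ := exists_stall (fun s => Module.finrank ℝ (φ s P0)) N
    (fun s _ => Submodule.finrank_mono (hmono s 0 (s + 1) (by omega) _ _ rfl))
    (hN ▸ Submodule.finrank_le _)
  have key := Fam.stall hc φ (fun A => Module.finrank ℝ A) h0
    (fun Y _ Q hQ => hmono s 1 (s + 1) (by omega) Y Q hQ)
    (fun Y hY => le_antisymm (hle s (by omega) _ hY _ h0) (hle s (by omega) _ h0 _ hY))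
    (fun Y hY => le_antisymm (hle _ (by omega) _ hY _ h0) (hle _ (by omega) _ h0 _ hY))
    (fun Y _ x hx h => Submodule.eq_of_le_of_finrank_eq hx h) h4
  have hall : ∀ Q ∈ F.T, pos Q - pos P0 ∈ φ s P0 :=
    hc.ind h0 (by simp) fun Y hY Q hQ h => by
      have : pos Q - pos Y ∈ φ (s + 1) Y :=
        Submodule.subset_span ⟨Q, Fam.C_mono (by omega) hQ, Y, Fam.self_mem _ _, rfl⟩
      rw [(key Y hY).2] at this
      simpa using (φ s P0).add_mem this h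
  have htop : φ s P0 = ⊤ := by
    rw [← Submodule.orthogonal_eq_bot_iff, Submodule.eq_bot_iff]
    intro u hu
    by_contra hne
    obtain ⟨A, hA, B, hB, h⟩ := hsp u hne
    have := (φ s P0).sub_mem (hall A hA) (hall B hB)
    rw [sub_sub_sub_cancel_right] at this
    exact h (Submodule.inner_left_of_mem_orthogonal this hu)
  have near : ∀ k, ∀ Y ∈ F.T, ∀ Q ∈ F.C k Y, dist (pos Q) (pos Y) ≤ k * |D| := by
    intro k Y hY
    induction k with
    | zero => intro Q hQ; rw [Fam.mem_zero.mp hQ]; simp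
    | succ k ih =>
      intro Q hQ
      push_cast
      rcases Fam.mem_succ.mp hQ with h | ⟨h, U, hU, ha⟩
      · linarith [ih Q h, abs_nonneg D]
      · linarith [ih U hU, hD U (Fam.mem_T hY hU) Q h ha, le_abs_self D,
          dist_triangle (pos Q) (pos U) (pos Y)]
  have disc : ∀ Y ∈ F.T, ∀ ρ : ℝ,
      {g | F.Good N g Y ∧ dist (g (pos Y)) (pos Y) ≤ ρ}.Finite := fun Y hY ρ => by
    have f1 : Finite (F.C N Y) :=
      (hlf (pos Y) (N * |D|)).subset fun Q hQ => ⟨Fam.mem_T hY hQ, near N Y hY Q hQ⟩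
    have f2 := Set.Finite.pi' fun _ : F.C N Y => hlf (pos Y) (N * |D| + ρ)
    refine Set.Finite.of_finite_image (f := fun g (R : F.C N Y) => g • (R : X))
      (f2.subset ?_) fun g _ h _ e => ?_
    · rintro _ ⟨g, hg, rfl⟩ R
      refine ⟨hg.1.1 R R.2, ?_⟩
      rw [hp g _ (Fam.mem_T hY R.2)]
      have := dist_triangle (g (pos R)) (g (pos Y)) (pos Y)
      rw [g.dist_eq] at this
      linarith [near N Y hY R R.2, hg.2]
    · have e1 : ∀ R ∈ F.C N Y, (h⁻¹ * g) (pos R) = pos R := fun R hR => by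
        have : g • R = h • R := congrFun e ⟨R, hR⟩
        rw [← hp _ _ (Fam.mem_T hY hR), mul_smul, this, inv_smul_smul]
      refine (inv_mul_eq_one.mp (eq_one_of_lin (e1 Y (Fam.self_mem _ _)) ?_)).symm
      ext v
      have hv : v ∈ φ N Y := hmono s 0 N (by omega) Y Y rfl (by rw [(key Y hY).1, htop]; trivial)
      induction hv using Submodule.span_induction with
      | mem v hv =>
        obtain ⟨A, hA, B, hB, rfl⟩ := hv
        rw [lin_sub, e1 A hA, e1 B hB]; rfl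
      | zero => simp
      | add x y _ _ hx hy => rw [map_add, map_add, hx, hy]
      | smul r x _ hx => rw [map_smul, map_smul, hx]
  refine core F N K (by rw [← hN] at hK ⊢; omega) hc hb (fun Y hY => ⟨pos Y, disc Y hY⟩)
    (fun Y hY => (disc Y hY 0).subset fun g hg => ⟨hg.2, ?_⟩) P0 h0
  rw [← hp g Y hY, hg.1, dist_self]

end Pool.Agent.Lib.MP_6d95fe_co.H35
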