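import Pool.Agent.Lib.MP_6d95fe_co.H35.Defs

/-! Local finiteness and connectedness of monohedral tilings; isometries of the sphere. -/

namespace Pool.Agent.Lib.MP_6d95fe_co.H35

open scoped RealInnerProductSpace

section
variable {X : Type*} [MetricSpace X] [ProperSpace X] {T : Set (Set X)}

omit [ProperSpace X] in
theorem tile_diam (hT : IsTiling T) (hm : ∀ P ∈ T, ∀ Q ∈ T, ∃ g : X ≃ᵢ X, g '' P = Q) :
    ∃ D : ℝ, ∀ P ∈ T, ∀ p ∈ P, ∀ q ∈ P, dist p q ≤ D := by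
  rcases T.eq_empty_or_nonempty with rfl | ⟨P0, h0⟩
  · exact ⟨0, fun P hP => hP.elim⟩
  refine ⟨Metric.diam P0, fun P hP p hp q hq => ?_⟩
  obtain ⟨g, rfl⟩ := hm P0 h0 P hP
  obtain ⟨a, ha, rfl⟩ := hp
  obtain ⟨b, hb, rfl⟩ := hq
  rw [g.dist_eq]
  exact Metric.dist_le_diam_of_mem (hT.1 P0 h0).1.isBounded ha hb

omit [ProperSpace X] in
theorem tile_balls (hT : IsTiling T) (hm : ∀ P ∈ T, ∀ Q ∈ T, ∃ g : X ≃ᵢ X, g '' P = Q) :
    ∃ r : ℝ, 0 < r ∧ ∀ P ∈ T, ∃ c : X, Metric.ball c r ⊆ interior P := by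
  rcases T.eq_empty_or_nonempty with rfl | ⟨P0, h0⟩
  · exact ⟨1, one_pos, fun P hP => hP.elim⟩
  obtain ⟨x0, hx0⟩ := (hT.1 P0 h0).2
  obtain ⟨r, hr, hb⟩ := Metric.isOpen_iff.1 isOpen_interior x0 hx0
  refine ⟨r, hr, fun P hP => ?_⟩
  obtain ⟨g, rfl⟩ := hm P0 h0 P hP
  refine ⟨g x0, interior_maximal (fun y hy => ?_) Metric.isOpen_ball⟩
  refine ⟨g.symm y, interior_subset (hb ?_), g.apply_symm_apply y⟩
  rw [Metric.mem_ball] at hy ⊢
  rwa [← g.dist_eq, g.apply_symm_apply]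

/-- A ball meets finitely many tiles of a monohedral tiling. -/
theorem IsTiling.finite_near (hT : IsTiling T) (hm : ∀ P ∈ T, ∀ Q ∈ T, ∃ g : X ≃ᵢ X, g '' P = Q)
    (x : X) (ρ : ℝ) : {P | P ∈ T ∧ ∃ p ∈ P, dist p x ≤ ρ}.Finite := by
  obtain ⟨D, hD⟩ := tile_diam hT hm
  obtain ⟨r, hr, hc⟩ := tile_balls hT hm
  haveI : Nonempty X := ⟨x⟩
  choose! c hc using hc
  obtain ⟨t, -, ht, hcov⟩ := finite_cover_balls_of_compact
    (isCompact_closedBall x (D + ρ)) (half_pos hr)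
  have hy : ∀ P ∈ {P | P ∈ T ∧ ∃ p ∈ P, dist p x ≤ ρ}, ∃ y ∈ t, dist (c P) y < r / 2 := by
    rintro P ⟨hP, p, hp, hpx⟩
    have h1 : c P ∈ P := interior_subset (hc P hP (Metric.mem_ball_self hr))
    have h2 : c P ∈ Metric.closedBall x (D + ρ) := by
      rw [Metric.mem_closedBall]
      linarith [dist_triangle (c P) p x, hD P hP _ h1 p hp]
    have h3 := hcov h2
    simp only [Set.mem_iUnion, Metric.mem_ball] at h3
    obtain ⟨y, hy, h⟩ := h3
    exact ⟨y, hy, h⟩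
  choose! y hyt hy using hy
  refine Set.Finite.of_injOn (f := y) (fun P hP => hyt P hP) (fun P hP Q hQ e => ?_) ht
  by_contra hne
  have h1 := hy P hP
  have h2 := hy Q hQ
  rw [← e] at h2
  have h3 : c Q ∈ Metric.ball (c P) r := by
    rw [Metric.mem_ball]
    linarith [dist_triangle_right (c Q) (c P) (y P)]
  exact Set.disjoint_left.1 (hT.2.2 P hP.1 Q hQ.1 hne) (hc P hP.1 h3)
    (hc Q hQ.1 (Metric.mem_ball_self hr))

omit [MetricSpace X] [ProperSpace X] in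
theorem tile_step {k : ℕ} {P Q R : Set X} (hQ : Q ∈ corona T k P) (hR : R ∈ T)
    (h : (Q ∩ R).Nonempty) : R ∈ corona T (k + 1) P := by
  obtain ⟨m, hm, c, h0, h1, h2, h3⟩ := hQ
  refine ⟨m + 1, by omega, fun i => if i ≤ m then c i else R, by simp [h0], by simp,
    fun i _ => ?_, fun i hi => ?_⟩
  · by_cases hi : i ≤ m
    · simpa [hi] using h2 i hi
    · simpa [hi] using hR
  · have h4 : i ≤ m := by omega
    by_cases h5 : i + 1 ≤ m
    · simpa [h4, h5] using h3 i (by omega)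
    · obtain rfl : i = m := by omega
      simpa [h1] using h

theorem tile_closed (hT : IsTiling T) (hm : ∀ P ∈ T, ∀ Q ∈ T, ∃ g : X ≃ᵢ X, g '' P = Q)
    {B : Set (Set X)} (hB : B ⊆ T) : IsClosed (⋃ P : B, (P : Set X)) := by
  refine LocallyFinite.isClosed_iUnion (fun x => ⟨Metric.ball x 1, Metric.ball_mem_nhds x one_pos,
    ?_⟩) (fun P => (hT.1 P (hB P.2)).1.isClosed)
  refine ((hT.finite_near hm x 1).preimage Subtype.val_injective.injOn).subset ?_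
  rintro P ⟨p, hp, hx⟩
  exact ⟨hB P.2, p, hp, (Metric.mem_ball.1 hx).le⟩

/-- Any two tiles are joined by a chain of intersecting tiles. -/
theorem IsTiling.conn [ConnectedSpace X] (hT : IsTiling T)
    (hm : ∀ P ∈ T, ∀ Q ∈ T, ∃ g : X ≃ᵢ X, g '' P = Q) :
    ∀ P ∈ T, ∀ Q ∈ T, ∃ k, Q ∈ corona T k P := by
  intro P hP Q hQ
  let A : Set (Set X) := {R | R ∈ T ∧ ∃ k, R ∈ corona T k P}
  let B : Set (Set X) := {R | R ∈ T ∧ ¬ ∃ k, R ∈ corona T k P}
  have hA : IsClosed (⋃ R : A, (R : Set X)) := tile_closed hT hm fun R h => h.1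
  have hB : IsClosed (⋃ R : B, (R : Set X)) := tile_closed hT hm fun R h => h.1
  have hc : (⋃ R : A, (R : Set X)) = (⋃ R : B, (R : Set X))ᶜ := by
    ext z
    simp only [Set.mem_iUnion, Set.mem_compl_iff]
    constructor
    · rintro ⟨⟨R, hR, k, hk⟩, hz⟩ ⟨⟨S, hS, hn⟩, hz'⟩
      exact hn ⟨k + 1, tile_step hk hS ⟨z, hz, hz'⟩⟩
    · intro h
      obtain ⟨R, hR, hz⟩ := hT.2.1 z
      by_cases hk : ∃ k, R ∈ corona T k P
      · exact ⟨⟨R, hR, hk⟩, hz⟩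
      · exact (h ⟨⟨R, hR, hk⟩, hz⟩).elim
  have hcl : IsClopen (⋃ R : A, (R : Set X)) := ⟨hA, by rw [hc]; exact hB.isOpen_compl⟩
  have hPA : P ∈ A := ⟨hP, 0, 0, le_rfl, fun _ => P, rfl, rfl, fun _ _ => hP,
    fun i hi => absurd hi (Nat.not_lt_zero i)⟩
  obtain ⟨p, hp⟩ := (hT.1 P hP).2
  have hu := hcl.eq_univ ⟨p, Set.mem_iUnion.2 ⟨⟨P, hPA⟩, interior_subset hp⟩⟩
  obtain ⟨q, hq⟩ := (hT.1 Q hQ).2
  have hq' : q ∈ ⋃ R : A, (R : Set X) := hu ▸ Set.mem_univ q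
  obtain ⟨⟨R, hR, k, hk⟩, hz⟩ := Set.mem_iUnion.1 hq'
  exact ⟨k + 1, tile_step hk hQ ⟨q, hz, interior_subset hq⟩⟩

/-- The tiles of a monohedral tiling have bounded diameter. -/
theorem IsTiling.diam (hT : IsTiling T) (hm : ∀ P ∈ T, ∀ Q ∈ T, ∃ g : X ≃ᵢ X, g '' P = Q) :
    ∃ D : ℝ, ∀ P ∈ T, ∀ p ∈ P, ∀ q ∈ P, dist p q ≤ D :=
  tile_diam hT hm

end

variable {E : Type*} [NormedAddCommGroup E] [InnerProductSpace ℝ E] [FiniteDimensional ℝ E]

omit [FiniteDimensional ℝ E] in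
theorem sphere_inner (g : Metric.sphere (0 : E) 1 ≃ᵢ Metric.sphere (0 : E) 1)
    (u v : Metric.sphere (0 : E) 1) : ⟪(g u : E), (g v : E)⟫ = ⟪(u : E), (v : E)⟫ := by
  have h : ‖(g u : E) - g v‖ = ‖(u : E) - v‖ := by
    rw [← dist_eq_norm, ← dist_eq_norm, ← Subtype.dist_eq, ← Subtype.dist_eq, g.dist_eq]
  have h1 := norm_sub_sq_real (g u : E) (g v)
  have h2 := norm_sub_sq_real (u : E) v
  rw [h, h2, norm_eq_of_mem_sphere, norm_eq_of_mem_sphere, norm_eq_of_mem_sphere,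
    norm_eq_of_mem_sphere] at h1
  linarith

omit [FiniteDimensional ℝ E] in
theorem sphere_polar (x : E) (hx : x ≠ 0) :
    ∃ u : Metric.sphere (0 : E) 1, x = ‖x‖ • (u : E) :=
  ⟨⟨‖x‖⁻¹ • x, by simp [norm_smul, hx]⟩, by simp [smul_smul, hx]⟩

omit [FiniteDimensional ℝ E] in
theorem sphere_cone (g : Metric.sphere (0 : E) 1 ≃ᵢ Metric.sphere (0 : E) 1) :
    ∃ F : E → E, ∀ (a : ℝ) (u : Metric.sphere (0 : E) 1), 0 ≤ a →
      F (a • (u : E)) = a • (g u : E) := by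
  classical
  refine ⟨fun x => if hx : x = 0 then 0 else ‖x‖ • (g (sphere_polar x hx).choose : E),
    fun a u ha => ?_⟩
  rcases ha.eq_or_lt with rfl | ha
  · simp
  have hn : ‖a • (u : E)‖ = a := by
    rw [norm_smul, norm_eq_of_mem_sphere, Real.norm_of_nonneg ha.le, mul_one]
  have hx : a • (u : E) ≠ 0 := by
    intro h
    rw [h, norm_zero] at hn
    exact ha.ne hn
  have h := (sphere_polar _ hx).choose_spec
  simp only [dif_neg hx]
  generalize (sphere_polar _ hx).choose = w at h ⊢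
  rw [hn] at h ⊢
  obtain rfl : u = w := Subtype.ext (smul_right_injective E ha.ne' h)
  rfl

/-- An isometry of the unit sphere extends to an isometry of the space. -/
theorem sphere_extend (g : Metric.sphere (0 : E) 1 ≃ᵢ Metric.sphere (0 : E) 1) :
    ∃ f : E ≃ᵢ E, ∀ x : Metric.sphere (0 : E) 1, f x = g x := by
  rcases subsingleton_or_nontrivial E with hE | hE
  · exact ⟨IsometryEquiv.refl E, fun x => Subsingleton.elim _ _⟩
  obtain ⟨e, he⟩ := exists_ne (0 : E)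
  obtain ⟨u0, -⟩ := sphere_polar e he
  have hp : ∀ x : E, ∃ (a : ℝ) (u : Metric.sphere (0 : E) 1), 0 ≤ a ∧ x = a • (u : E) := by
    intro x
    by_cases hx : x = 0
    · exact ⟨0, u0, le_rfl, by simp [hx]⟩
    · obtain ⟨u, hu⟩ := sphere_polar x hx
      exact ⟨‖x‖, u, norm_nonneg x, hu⟩
  obtain ⟨F, hF⟩ := sphere_cone g
  have hiso : Isometry F := by
    refine Isometry.of_dist_eq fun x y => ?_
    obtain ⟨a, u, ha, rfl⟩ := hp x
    obtain ⟨b, v, hb, rfl⟩ := hp y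
    rw [hF a u ha, hF b v hb, dist_eq_norm, dist_eq_norm,
      ← sq_eq_sq₀ (norm_nonneg _) (norm_nonneg _), norm_sub_sq_real, norm_sub_sq_real]
    simp only [norm_smul, norm_eq_of_mem_sphere, real_inner_smul_left, real_inner_smul_right,
      sphere_inner]
  have hsurj : Function.Surjective F := by
    intro y
    obtain ⟨a, u, ha, rfl⟩ := hp y
    exact ⟨a • (g.symm u : E), by rw [hF a _ ha, g.apply_symm_apply]⟩
  refine ⟨⟨Equiv.ofBijective F ⟨hiso.injective, hsurj⟩, hiso⟩, fun x => ?_⟩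
  have := hF 1 x zero_le_one
  rw [one_smul, one_smul] at this
  exact this

/-- An isometry of the space that preserves a set restricts to it. -/
theorem restrict_iso (M : Set E) (f : E ≃ᵢ E) (h : f '' M = M) :
    ∃ g : M ≃ᵢ M, ∀ x : M, (g x : E) = f x := by
  have h1 : ∀ x ∈ M, f x ∈ M := fun x hx => h ▸ Set.mem_image_of_mem f hx
  have h2 : ∀ x ∈ M, f.symm x ∈ M := fun x hx => by
    rw [← h] at hx
    obtain ⟨y, hy, rfl⟩ := hx
    rwa [f.symm_apply_apply]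
  refine ⟨⟨⟨fun x => ⟨f x, h1 x x.2⟩, fun x => ⟨f.symm x, h2 x x.2⟩,
    fun x => Subtype.ext (f.symm_apply_apply x), fun x => Subtype.ext (f.apply_symm_apply x)⟩,
    Isometry.of_dist_eq fun x y => ?_⟩, fun x => rfl⟩
  exact f.dist_eq x y

/-- A compact part of the sphere inside an open hemisphere lies in a ball of radius `< 1`. -/
theorem exists_ball_lt_one (P : Set E) (hP : IsCompact P) (h1 : ∀ p ∈ P, ‖p‖ = 1) (v : E)
    (hv : ∀ p ∈ P, 0 < ⟪v, p⟫) : ∃ x : E, ∃ t : ℝ, t < 1 ∧ ∀ p ∈ P, dist x p ≤ t := by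
  rcases P.eq_empty_or_nonempty with rfl | hne
  · exact ⟨0, 0, zero_lt_one, fun p hp => hp.elim⟩
  obtain ⟨p0, hp0, hmin⟩ := hP.exists_isMinOn hne
    (f := fun p => ⟪v, p⟫) (by fun_prop)
  have hm := hv p0 hp0
  set m := ⟪v, p0⟫ with hmdef
  have hpos : 0 < ‖v‖ ^ 2 + 1 := by positivity
  obtain ⟨e, he0, he⟩ : ∃ e : ℝ, 0 < e ∧ e * (‖v‖ ^ 2 + 1) = m :=
    ⟨m / (‖v‖ ^ 2 + 1), div_pos hm hpos, div_mul_cancel₀ _ hpos.ne'⟩
  refine ⟨e • v, √(1 - e * m), ?_, fun p hp => ?_⟩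
  · rw [Real.sqrt_lt' one_pos]
    nlinarith [mul_pos he0 hm]
  · refine (le_abs_self _).trans (Real.abs_le_sqrt ?_)
    have h2 : m ≤ ⟪v, p⟫ := hmin hp
    rw [dist_eq_norm, norm_sub_sq_real, norm_smul, h1 p hp, real_inner_smul_left,
      Real.norm_of_nonneg he0.le, mul_pow]
    nlinarith [mul_le_mul_of_nonneg_left h2 he0.le, mul_pos he0 he0]

end Pool.Agent.Lib.MP_6d95fe_co.H35
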