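import Pool.Agent.Lib.MP_6d95fe_co.H35.Core
import Pool.Agent.Lib.MP_6d95fe_co.H35.Tile
import Pool.Agent.Lib.MP_6d95fe_co.H35.Centre

/-! The corona bound for tilings of Euclidean space and of the sphere. -/

namespace Pool.Agent.Lib.MP_6d95fe_co.H35

open Pool.Agent.Lib.MP_6d95fe_co.Del
open scoped RealInnerProductSpace

variable {E : Type*} [NormedAddCommGroup E] [InnerProductSpace ℝ E] [FiniteDimensional ℝ E]

theorem main_emb {M : Type*} [MetricSpace M] [ProperSpace M] [ConnectedSpace M] (ι : M → E)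
    (hι : Isometry ι) (hext : ∀ g : M ≃ᵢ M, ∃ f : E ≃ᵢ E, ∀ x, f (ι x) = ι (g x))
    (hres : ∀ f : E ≃ᵢ E, f '' Set.range ι = Set.range ι → ∃ g : M ≃ᵢ M, ∀ x, ι (g x) = f (ι x))
    (T : Set (Set M)) (hT : IsTiling T) (K : ℕ)
    (hK : 7 * Module.finrank ℝ E ^ 2 + 3 * Module.finrank ℝ E + 1 ≤ K)
    (hsp : ∀ D : ℝ, (∀ A ∈ (fun P => ι '' P) '' T, ∀ p ∈ A, ∀ q ∈ A, dist p q ≤ D) →
      (∀ A ∈ (fun P => ι '' P) '' T, ∃ c, IsCc A c) → ∀ (u : E) (a : ℝ),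
      (∀ A ∈ (fun P => ι '' P) '' T, ∀ c, IsCc A c → ⟪u, c⟫ = a) → u = 0)
    (hb : CoronasCongruent T K) : IsIsohedral T := by
  let _ : MulAction (E ≃ᵢ E) (Set E) :=
    { smul := fun g P => g '' P
      one_smul := fun P => Set.image_id P
      mul_smul := fun g h P => (Set.image_image g h P).symm }
  have hsm : ∀ (g : E ≃ᵢ E) (P : Set E), g • P = g '' P := fun _ _ => rfl
  let F : Fam (E ≃ᵢ E) (Set E) :=
    { T := (fun P => ι '' P) '' T
      adj := fun A B => (A ∩ B).Nonempty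
      symm := fun A B h => by rwa [Set.inter_comm]
      smul_adj := fun g A B h => (h.image g).mono (Set.image_inter_subset _ _ _) }
  have hm : ∀ P ∈ T, ∀ Q ∈ T, ∃ g : M ≃ᵢ M, g '' P = Q := fun P hP Q hQ =>
    (hb P hP Q hQ).imp fun g h => h.1
  obtain ⟨D, hD⟩ := hT.diam hm
  have hD' : ∀ A ∈ F.T, ∀ p ∈ A, ∀ q ∈ A, dist p q ≤ D := by
    rintro _ ⟨P, hP, rfl⟩ _ ⟨p, hp, rfl⟩ _ ⟨q, hq, rfl⟩
    rw [hι.dist_eq]; exact hD P hP p hp q hq
  have hne : ∀ A ∈ F.T, A.Nonempty := by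
    rintro _ ⟨P, hP, rfl⟩
    exact ((hT.1 P hP).2.mono interior_subset).image ι
  have c1 : ∀ k, ∀ P ∈ T, ∀ A ∈ F.C k (ι '' P), ∃ Q ∈ corona T k P, A = ι '' Q := by
    intro k P hP
    induction k with
    | zero => exact fun A hA => ⟨P, cor_self hP, hA⟩
    | succ k ih =>
      intro A hA
      rcases Fam.mem_succ.mp hA with h | ⟨⟨R, hR, rfl⟩, U, hU, ha⟩
      · obtain ⟨Q, hQ, e⟩ := ih A h
        exact ⟨Q, cor_mono (Nat.le_succ k) hQ, e⟩
      · obtain ⟨Q, hQ, rfl⟩ := ih U hU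
        refine ⟨R, tile_step hQ hR ?_, rfl⟩
        obtain ⟨_, ⟨x, hx, rfl⟩, y, hy, e⟩ := ha
        exact ⟨x, hx, hι.injective e ▸ hy⟩
  have c2 : ∀ k P, ∀ Q ∈ corona T k P, ι '' Q ∈ F.C k (ι '' P) := by
    rintro k P Q ⟨m, hm, c, e0, em, h1, h2⟩
    have : ∀ i ≤ m, ι '' c i ∈ F.C i (ι '' P) := by
      intro i
      induction i with
      | zero => intro _; rw [e0]; rfl
      | succ i ih =>
        intro hi
        exact Or.inr ⟨⟨_, h1 _ hi, rfl⟩, _, ih (by omega),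
          ((h2 i (by omega)).image ι).mono (Set.image_inter_subset _ _ _)⟩
    exact Fam.C_mono hm (em ▸ this m le_rfl)
  have him : ∀ (g : M ≃ᵢ M) (f : E ≃ᵢ E), (∀ x, f (ι x) = ι (g x)) →
      ∀ P, f • ι '' P = ι '' (g '' P) := fun g f h P => by
    rw [hsm, Set.image_image, Set.image_image]; exact Set.image_congr fun x _ => h x
  let pos : Set E → E := fun A => Classical.epsilon (IsCc A)
  have hex : ∀ A ∈ F.T, ∃ c, IsCc A c := fun A hA => exists_isCc (hne A hA) (hD' A hA)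
  have hpos : ∀ A ∈ F.T, IsCc A (pos A) := fun A hA => Classical.epsilon_spec (hex A hA)
  have hpD : ∀ A ∈ F.T, ∀ p ∈ A, dist (pos A) p ≤ D := fun A hA p hp =>
    hpos A hA p D (hD' A hA p hp) p hp
  have key := core_pos F pos (2 * D) K hK ?_ ?_ ?_ ?_ ?_ ?_
  · intro P hP Q hQ
    obtain ⟨f, hf, e⟩ := key _ ⟨P, hP, rfl⟩ _ ⟨Q, hQ, rfl⟩
    have r : ∀ f ∈ F.Sym, ∀ x, f (ι x) ∈ Set.range ι := fun f hf x => by
      obtain ⟨R, hR, hx⟩ := hT.2.1 x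
      obtain ⟨R', -, e⟩ := (hf _ ⟨R, hR, rfl⟩).1
      have : f (ι x) ∈ f • ι '' R := ⟨_, ⟨x, hx, rfl⟩, rfl⟩
      rw [← e] at this
      exact Set.image_subset_range _ _ this
    obtain ⟨g, hg⟩ := hres f (Set.Subset.antisymm
      (by rintro _ ⟨_, ⟨x, rfl⟩, rfl⟩; exact r f hf x)
      (by rintro _ ⟨x, rfl⟩; exact ⟨_, r _ (F.Sym.inv_mem hf) x, f.apply_symm_apply _⟩))
    have hg' := him g f fun x => (hg x).symm
    have inj := Set.image_injective.2 hι.injective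
    refine ⟨g, Set.Subset.antisymm ?_ fun R hR => ?_, inj (by rw [← hg']; exact e)⟩
    · rintro _ ⟨R, hR, rfl⟩
      obtain ⟨R', hR', e'⟩ := (hf _ ⟨R, hR, rfl⟩).1
      rw [hg'] at e'
      show g '' R ∈ T
      exact inj e' ▸ hR'
    · obtain ⟨R', hR', e'⟩ := (hf _ ⟨R, hR, rfl⟩).2
      refine ⟨R', hR', inj ?_⟩
      have e'' : ι '' R' = f⁻¹ • ι '' R := e'
      rw [← hg', e'', smul_inv_smul]
  · rintro _ ⟨P, hP, rfl⟩ _ ⟨Q, hQ, rfl⟩
    exact (hT.conn hm P hP Q hQ).imp fun k h => c2 k P Q h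
  · rintro _ ⟨P, hP, rfl⟩ _ ⟨Q, hQ, rfl⟩
    obtain ⟨g, h1, h2⟩ := hb P hP Q hQ
    obtain ⟨f, hf⟩ := hext g
    have e : f • ι '' P = ι '' Q := by rw [him g f hf, h1]
    refine ⟨f, e, fun A hA => ?_, fun A hA => ?_⟩
    · obtain ⟨R, hR, rfl⟩ := c1 K P hP A hA
      have : g '' R ∈ corona T K Q := h2 ▸ ⟨R, hR, rfl⟩
      exact ⟨_, cor_mem this, (him g f hf R).symm⟩
    · rw [e] at hA
      obtain ⟨R, hR, rfl⟩ := c1 K Q hQ A hA
      rw [← h2] at hR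
      obtain ⟨R', hR', rfl⟩ := hR
      rw [← him g f hf, inv_smul_smul]
      exact ⟨_, cor_mem hR', rfl⟩
  · intro g A hA
    have h1 := (hpos A hA).image g
    refine IsCc.unique (D := D) ((hne A hA).image g) ?_ (Classical.epsilon_spec ⟨_, h1⟩) h1
    rintro _ ⟨p, hp, rfl⟩ _ ⟨q, hq, rfl⟩
    rw [g.dist_eq]; exact hD' A hA p hp q hq
  · rintro A hA B hB ⟨p, hp, hq⟩
    linarith [hpD A hA p hp, hpD B hB p hq, dist_triangle_right (pos B) (pos A) p]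
  · intro x ρ
    obtain ⟨x0⟩ : Nonempty M := inferInstance
    refine ((hT.finite_near hm x0 (D + ρ + dist x (ι x0))).image fun P => ι '' P).subset ?_
    rintro _ ⟨⟨P, hP, rfl⟩, h⟩
    obtain ⟨p, hp⟩ := (hT.1 P hP).2.mono interior_subset
    refine ⟨P, ⟨hP, p, hp, ?_⟩, rfl⟩
    have := hpD _ ⟨P, hP, rfl⟩ _ ⟨p, hp, rfl⟩
    rw [← hι.dist_eq]
    linarith [dist_triangle4 (ι p) (pos (ι '' P)) x (ι x0), dist_comm (ι p) (pos (ι '' P))]
  · intro u hu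
    by_contra hn
    push Not at hn
    obtain ⟨x0⟩ : Nonempty M := inferInstance
    obtain ⟨P, hP, -⟩ := hT.2.1 x0
    refine hu (hsp D hD' hex u ⟪u, pos (ι '' P)⟫ fun A hA c hc => ?_)
    have := hn A hA _ ⟨P, hP, rfl⟩
    rw [inner_sub_right, sub_eq_zero] at this
    rw [← this, IsCc.unique (hne A hA) (hD' A hA) hc (hpos A hA)]

theorem main_euclid (T : Set (Set E)) (hT : IsTiling T) (K : ℕ)
    (hK : 7 * Module.finrank ℝ E ^ 2 + 3 * Module.finrank ℝ E + 1 ≤ K)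
    (hb : CoronasCongruent T K) : IsIsohedral T :=
  main_emb id isometry_id (fun g => ⟨g, fun _ => rfl⟩) (fun f _ => ⟨f, fun _ => rfl⟩) T hT K hK
    (fun _ hD hc => span_euclid hD hc fun z => by
      obtain ⟨P, hP, hz⟩ := hT.2.1 z
      exact ⟨_, ⟨P, hP, rfl⟩, z, hz, rfl⟩) hb

theorem main_sphere (h2 : 2 ≤ Module.finrank ℝ E) (T : Set (Set (Metric.sphere (0 : E) 1)))
    (hT : IsTiling T) (hh : ∀ P ∈ T, ∃ v : E, ∀ p ∈ P, 0 < ⟪v, (p : E)⟫) (K : ℕ)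
    (hK : 7 * Module.finrank ℝ E ^ 2 + 3 * Module.finrank ℝ E + 1 ≤ K)
    (hb : CoronasCongruent T K) : IsIsohedral T := by
  have : ConnectedSpace (Metric.sphere (0 : E) 1) :=
    isConnected_iff_connectedSpace.mp (isConnected_sphere
      (by rw [← Module.finrank_eq_rank]; exact_mod_cast h2) 0 zero_le_one)
  refine main_emb Subtype.val isometry_subtype_coe sphere_extend (fun f hf => ?_) T hT K hK
    (fun _ _ hc => span_sphere ?_ hc fun z hz => ?_) hb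
  · rw [Subtype.range_coe] at hf
    exact restrict_iso _ f hf
  · rintro _ ⟨P, hP, rfl⟩
    obtain ⟨v, hv⟩ := hh P hP
    refine exists_ball_lt_one _ ((hT.1 P hP).1.image continuous_subtype_val) ?_ v ?_
    · rintro _ ⟨p, -, rfl⟩
      exact norm_eq_of_mem_sphere p
    · rintro _ ⟨p, hp, rfl⟩
      exact hv p hp
  · obtain ⟨P, hP, h⟩ := hT.2.1 ⟨z, mem_sphere_zero_iff_norm.2 hz⟩
    exact ⟨_, ⟨P, hP, rfl⟩, _, h, rfl⟩

end Pool.Agent.Lib.MP_6d95fe_co.H35
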