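import Pool.Agent.Lib.MP_6d95fe_co.H4Del6

/-! Packing bounds for groups of isometries. -/

namespace Pool.Agent.Lib.MP_6d95fe_co.H35

open Pool.Agent.Lib.MP_6d95fe_co.Del
open scoped RealInnerProductSpace

/-- Volume bound for separated points in a ball. -/
theorem pk_ball {X : Type*} [NormedAddCommGroup X] [NormedSpace ℝ X] [FiniteDimensional ℝ X]
    (s : Finset X) {r : ℝ} (hr : 0 ≤ r) (hs : ∀ c ∈ s, ‖c‖ ≤ r)
    (h : ∀ c ∈ s, ∀ d ∈ s, c ≠ d → 1 ≤ ‖c - d‖) :
    (s.card : ℝ) ≤ (2 * r + 1) ^ Module.finrank ℝ X := by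
  borelize X
  let μ : MeasureTheory.Measure X := MeasureTheory.Measure.addHaar
  have ρpos : 0 < r + 1 / 2 := by linarith
  have δpos : (0 : ℝ) < 1 / 2 := by norm_num
  have D : Set.Pairwise (s : Set X)
      (Function.onFun Disjoint fun c => Metric.ball (c : X) (1 / 2)) := by
    rintro c hc d hd hcd
    apply Metric.ball_disjoint_ball
    rw [dist_eq_norm]
    linarith [h c hc d hd hcd]
  have hsub : ⋃ c ∈ s, Metric.ball (c : X) (1 / 2) ⊆ Metric.ball (0 : X) (r + 1 / 2) := by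
    refine Set.iUnion₂_subset fun x hx => ?_
    apply Metric.ball_subset_ball'
    rw [dist_zero_right]
    linarith [hs x hx]
  have I := MeasureTheory.measure_mono (μ := μ) hsub
  rw [MeasureTheory.measure_biUnion_finset D fun c _ => Metric.isOpen_ball.measurableSet] at I
  simp only [μ.addHaar_ball_of_pos _ δpos, μ.addHaar_ball_of_pos _ ρpos, Finset.sum_const,
    nsmul_eq_mul, ← mul_assoc] at I
  have J := (ENNReal.mul_le_mul_iff_left (Metric.measure_ball_pos μ (0 : X) zero_lt_one).ne'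
    MeasureTheory.measure_ball_lt_top.ne).1 I
  have K := ENNReal.toReal_le_of_le_ofReal (pow_nonneg ρpos.le _) J
  rw [ENNReal.toReal_mul, ENNReal.toReal_natCast, ENNReal.toReal_ofReal (by positivity)] at K
  have e : (r + 1 / 2) ^ Module.finrank ℝ X =
      (2 * r + 1) ^ Module.finrank ℝ X * (1 / 2) ^ Module.finrank ℝ X := by
    rw [← mul_pow]; congr 1; ring
  rw [e] at K
  exact le_of_mul_le_mul_right K (by positivity)

/-- The same bound for a family of points in the unit ball. -/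
theorem pk_fam {X A : Type*} [NormedAddCommGroup X] [NormedSpace ℝ X] [FiniteDimensional ℝ X]
    (s : Finset A) (F : A → X) {r : ℝ} (hr : 0 ≤ r) (hs : ∀ a ∈ s, ‖F a‖ ≤ 1)
    (h : ∀ a ∈ s, ∀ b ∈ s, a ≠ b → 1 ≤ r * ‖F a - F b‖) :
    (s.card : ℝ) ≤ (2 * r + 1) ^ Module.finrank ℝ X := by
  classical
  have h' : ∀ a ∈ s, ∀ b ∈ s, a ≠ b → 1 ≤ ‖r • F a - r • F b‖ := fun a ha b hb hne => by
    rw [← smul_sub, norm_smul, Real.norm_of_nonneg hr]
    exact h a ha b hb hne
  have inj : Set.InjOn (fun a => r • F a) s := fun a ha b hb e => by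
    by_contra hne
    have := h' a ha b hb hne
    simp only at e
    rw [e, sub_self, norm_zero] at this
    linarith
  rw [← Finset.card_image_of_injOn inj]
  refine pk_ball _ hr (fun M hM => ?_) fun M hM N hN hne => ?_
  · obtain ⟨a, ha, rfl⟩ := Finset.mem_image.mp hM
    rw [norm_smul, Real.norm_of_nonneg hr]
    exact mul_le_of_le_one_right hr (hs a ha)
  · obtain ⟨a, ha, rfl⟩ := Finset.mem_image.mp hM
    obtain ⟨b, hb, rfl⟩ := Finset.mem_image.mp hN
    exact h' a ha b hb fun e => hne (by rw [e])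

variable {E : Type*} [NormedAddCommGroup E] [InnerProductSpace ℝ E]

/-- An isometry of finite order with trivial linear part is trivial. -/
theorem pk_eq_one {g : E ≃ᵢ E} {v : ℕ} (hv : 0 < v) (hg : g ^ v = 1) (h : lin g = 1) : g = 1 := by
  have h1 : ∀ x, g x = x + g 0 := fun x => by
    have := lin_sub g x 0
    rw [h, sub_zero] at this
    exact (eq_sub_iff_add_eq.mp this).symm
  have h2 : ∀ k : ℕ, (g ^ k) 0 = (k : ℝ) • g 0 := fun k => by
    induction k with
    | zero => simp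
    | succ k ih => rw [pow_succ', IsometryEquiv.mul_apply, h1, ih, Nat.cast_succ, add_smul, one_smul]
  have h3 := h2 v
  rw [hg] at h3
  have h4 : (v : ℝ) ≠ 0 := by exact_mod_cast hv.ne'
  exact eq_one_of_lin ((smul_eq_zero.mp h3.symm).resolve_left h4) h

/-- An isometry of order dividing `v` is far from the translations. -/
theorem pk_far {g : E ≃ᵢ E} {v : ℕ} (hv : 0 < v) (hg : g ^ v = 1) (h1 : g ≠ 1) :
    1 ≤ ((v : ℝ) - 1) / 2 * ‖lin g - 1‖ := by
  obtain ⟨y, hy⟩ : ∃ y, y - lin g y ≠ 0 := by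
    by_contra hn
    push Not at hn
    refine h1 (pk_eq_one hv hg ?_)
    ext y
    exact (sub_eq_zero.mp (hn y)).symm
  obtain ⟨x, hx⟩ : ∃ x, x = y - lin g y := ⟨_, rfl⟩
  rw [← hx] at hy
  have mul : ∀ (k : ℕ) (z : E), lin (g ^ (k + 1)) z = lin (g ^ k) (lin g z) := fun k z => by
    rw [pow_succ, map_mul]; rfl
  have s0 : ∀ k : ℕ, ∑ i ∈ Finset.range k, lin (g ^ i) x = y - lin (g ^ k) y := fun k => by
    induction k with
    | zero => simp
    | succ k ih => rw [Finset.sum_range_succ, ih, hx, map_sub, mul]; abel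
  have s1 : ∀ k : ℕ, ‖x - lin (g ^ k) x‖ ≤ k * (‖lin g - 1‖ * ‖x‖) := fun k => by
    induction k with
    | zero => simp
    | succ k ih =>
      have e : x - lin (g ^ (k + 1)) x = (x - lin (g ^ k) x) - lin (g ^ k) ((lin g - 1) x) := by
        have : (lin g - 1) x = lin g x - x := rfl
        rw [this, map_sub, mul]; abel
      have h2 := (lin g - 1).le_opNorm x
      have h3 := norm_sub_le (x - lin (g ^ k) x) (lin (g ^ k) ((lin g - 1) x))
      rw [norm_lin_apply] at h3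
      rw [e, Nat.cast_succ]; linarith
  have s2 : ∀ k : ℕ, ‖(k : ℝ) • x - ∑ i ∈ Finset.range k, lin (g ^ i) x‖ ≤
      k * (((k : ℝ) - 1) / 2) * (‖lin g - 1‖ * ‖x‖) := fun k => by
    induction k with
    | zero => simp
    | succ k ih =>
      have e : ((k + 1 : ℕ) : ℝ) • x - ∑ i ∈ Finset.range (k + 1), lin (g ^ i) x =
          ((k : ℝ) • x - ∑ i ∈ Finset.range k, lin (g ^ i) x) + (x - lin (g ^ k) x) := by
        rw [Finset.sum_range_succ, Nat.cast_succ, add_smul, one_smul]; abel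
      rw [e]
      refine (norm_add_le _ _).trans ((add_le_add ih (s1 k)).trans_eq ?_)
      push_cast; ring
  have s3 := s2 v
  have z : y - lin (g ^ v) y = 0 := by rw [hg, map_one]; exact sub_self y
  have hv' : (0 : ℝ) < v := by exact_mod_cast hv
  rw [s0, z, sub_zero, norm_smul, Real.norm_of_nonneg hv'.le] at s3
  have hx0 : 0 < ‖x‖ := norm_pos_iff.mpr hy
  refine le_of_mul_le_mul_right (a := v * ‖x‖) ?_ (by positivity)
  rw [one_mul]
  exact s3.trans_eq (by ring)

variable [FiniteDimensional ℝ E]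

theorem pk_aux {A : Type*} [Group A] (φ : A →* (E ≃ᵢ E)) (s : Finset A) {r : ℝ} (hr : 0 ≤ r)
    (h : ∀ a ∈ s, ∀ b ∈ s, a ≠ b → 1 ≤ r * ‖lin (φ (b⁻¹ * a)) - 1‖)
    {ι : Type*} [Fintype ι] (V : ι → Submodule ℝ E)
    (c : ι → A → ℝ) (e : ι → E) (hort : OrthogonalFamily ℝ (fun i => V i) fun i => (V i).subtypeₗᵢ)
    (htop : ⊤ ≤ ⨆ i, V i) (hV : ∀ i, ∀ v ∈ V i, ∀ a, sq (φ a) v = c i a • v)
    (he : ∀ i, e i ∈ V i) (he1 : ∀ i, ‖e i‖ = 1) (hmem : ∀ a i, lin (φ a) (e i) ∈ V i) :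
    (s.card : ℝ) ≤ (2 * r + 1) ^ Module.finrank ℝ E := by
  classical
  obtain ⟨σ, hσ⟩ : ∃ σ : ((i : ι) → V i) →ₗ[ℝ] E, ∀ f, σ f = ∑ i, (V i).subtypeₗᵢ (f i) :=
    ⟨∑ i, (V i).subtype ∘ₗ LinearMap.proj i, fun f => by simp⟩
  have hinj : Function.Injective σ := by
    rw [← LinearMap.ker_eq_bot, LinearMap.ker_eq_bot']
    intro f hf
    funext i
    have := hort.inner_right_fintype f i (f i)
    rw [← hσ, hf, inner_zero_right] at this
    exact inner_self_eq_zero.mp this.symm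
  have hsurj : ∀ v : E, ∃ f, σ f = v := by
    intro v
    have : ⨆ i, V i ≤ LinearMap.range σ := by
      refine iSup_le fun i w hw => ⟨Pi.single i ⟨w, hw⟩, ?_⟩
      rw [hσ, Finset.sum_eq_single i (fun j _ hne => by simp [hne]) (by simp)]
      simp
    exact this (htop Submodule.mem_top)
  have hrank := LinearMap.finrank_le_finrank_of_injective hinj
  have small : ∀ (a : A) (t : ℝ), 0 ≤ t → (∀ i, ‖lin (φ a) (e i) - e i‖ ≤ t) →
      ‖lin (φ a) - 1‖ ≤ t := fun a t ht0 hta => by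
    refine ContinuousLinearMap.opNorm_le_bound _ ht0 fun v => ?_
    obtain ⟨f, rfl⟩ := hsurj v
    have hχ : ∀ i, c i a ≤ t ^ 2 := fun i => by
      have h1 := inner_sq (φ a) (e i)
      rw [hV _ _ (he i), inner_smul_left, real_inner_self_eq_norm_sq, he1] at h1
      have h2 := pow_le_pow_left₀ (norm_nonneg _) (hta i) 2
      simp only [conj_trivial, one_pow, mul_one] at h1
      linarith
    have h1 : sq (φ a) (σ f) = σ fun i => c i a • f i := by
      rw [hσ, hσ, map_sum]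
      exact Finset.sum_congr rfl fun i _ => hV _ _ (f i).2 a
    have h2 : ∀ g, ⟪σ g, σ f⟫ = ∑ i, ⟪g i, f i⟫ := fun g => by
      rw [hσ, hσ]; exact hort.inner_sum g f Finset.univ
    have h3 : ‖lin (φ a) (σ f) - σ f‖ ^ 2 ≤ (t * ‖σ f‖) ^ 2 := by
      rw [← inner_sq, h1, h2, mul_pow, ← real_inner_self_eq_norm_sq, h2, Finset.mul_sum]
      refine Finset.sum_le_sum fun i _ => ?_
      rw [inner_smul_left]
      exact mul_le_mul_of_nonneg_right (hχ i) real_inner_self_nonneg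
    exact (pow_le_pow_iff_left₀ (norm_nonneg _) (by positivity) two_ne_zero).1 h3
  obtain ⟨F, hF⟩ : ∃ F : A → (i : ι) → V i, ∀ a i, (F a i : E) = lin (φ a) (e i) :=
    ⟨fun a i => ⟨_, hmem a i⟩, fun _ _ => rfl⟩
  refine (pk_fam s F hr (fun a _ => ?_) fun a ha b hb hne => ?_).trans
    (pow_le_pow_right₀ (by linarith) hrank)
  · refine (pi_norm_le_iff_of_nonneg (by norm_num)).2 fun i => ?_
    rw [← Submodule.norm_coe, hF, norm_lin_apply, he1]
  · refine (h a ha b hb hne).trans (mul_le_mul_of_nonneg_left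
      (small _ _ (norm_nonneg _) fun i => ?_) hr)
    have h1 := norm_le_pi_norm (F a - F b) i
    have h2 : ‖(F a - F b) i‖ = ‖lin (φ a) (e i) - lin (φ b) (e i)‖ := by
      rw [← Submodule.norm_coe, Pi.sub_apply, Submodule.coe_sub, hF, hF]
    have h3 : lin (φ (b⁻¹ * a)) (e i) - e i =
        lin (φ b)⁻¹ (lin (φ a) (e i) - lin (φ b) (e i)) := by
      rw [map_sub, lin_inv_lin, map_mul, map_inv, map_mul]; rfl
    rw [h3, norm_lin_apply, ← h2]
    exact h1

/-- Packing in a commutative group of isometries. -/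
theorem pk_comm {A : Type*} [Group A] (φ : A →* (E ≃ᵢ E)) (hc : ∀ a b : A, Commute a b)
    (s : Finset A) {r : ℝ} (hr : 0 ≤ r)
    (h : ∀ a ∈ s, ∀ b ∈ s, a ≠ b → 1 ≤ r * ‖lin (φ (b⁻¹ * a)) - 1‖) :
    (s.card : ℝ) ≤ (2 * r + 1) ^ Module.finrank ℝ E := by
  classical
  let V : (A → ℝ) → Submodule ℝ E := fun χ => ⨅ a, Module.End.eigenspace (sq (φ a)) (χ a)
  have htop : ⨆ χ, V χ = ⊤ :=
    LinearMap.IsSymmetric.iSup_iInf_eq_top_of_commute (fun a => sq_symm (φ a))
      fun a b _ => sq_comm ((hc a b).map φ)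
  have hort : OrthogonalFamily ℝ (fun χ => V χ) fun χ => (V χ).subtypeₗᵢ :=
    LinearMap.IsSymmetric.orthogonalFamily_iInf_eigenspaces
      (T := fun a => sq (φ a)) (fun a => sq_symm (φ a))
  have hV : ∀ χ, ∀ v ∈ V χ, ∀ a, sq (φ a) v = χ a • v := fun χ v hv a =>
    Module.End.mem_eigenspace_iff.mp ((Submodule.mem_iInf _).mp hv a)
  have hV' : ∀ χ v, (∀ a, sq (φ a) v = χ a • v) → v ∈ V χ := fun χ v hv =>
    (Submodule.mem_iInf _).mpr fun a => Module.End.mem_eigenspace_iff.mpr (hv a)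
  clear_value V
  have hex : ∀ χ : {χ // V χ ≠ ⊥}, ∃ e ∈ V χ.1, ‖e‖ = 1 := fun χ => by
    obtain ⟨n, hn, hn0⟩ := Submodule.exists_mem_ne_zero_of_ne_bot χ.2
    exact ⟨(‖n‖⁻¹ : ℝ) • n, Submodule.smul_mem _ _ hn, by
      rw [norm_smul]; simp [norm_ne_zero_iff.mpr hn0]⟩
  choose e he he1 using hex
  have hon : Orthonormal ℝ e := ⟨he1, fun χ ψ hne =>
    hort (fun h => hne (Subtype.ext h)) ⟨e χ, he χ⟩ ⟨e ψ, he ψ⟩⟩
  have : Finite {χ // V χ ≠ ⊥} := hon.linearIndependent.finite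
  have := Fintype.ofFinite {χ // V χ ≠ ⊥}
  refine pk_aux φ s hr h (fun χ : {χ // V χ ≠ ⊥} => V χ.1) (fun χ => χ.1) e
    (fun χ ψ hne => hort fun h => hne (Subtype.ext h)) ?_ (fun χ => hV χ.1) he he1
    fun a χ => hV' _ _ fun b => by rw [sq_lin ((hc b a).map φ), hV _ _ (he χ), map_smul]
  rw [← htop]
  refine iSup_le fun χ => ?_
  by_cases h0 : V χ = ⊥
  · rw [h0]; exact bot_le
  · exact le_iSup (fun χ : {χ // V χ ≠ ⊥} => V χ.1) ⟨χ, h0⟩

theorem pk_torsion (W : Subgroup (E ≃ᵢ E)) (hc : ∀ a ∈ W, ∀ b ∈ W, Commute a b) {v : ℕ}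
    (hv : 0 < v) (s : Finset W) (hs : ∀ x ∈ s, x ^ v = 1) : s.card ≤ v ^ Module.finrank ℝ E := by
  have hc' : ∀ a b : W, Commute a b := fun a b => Subtype.ext (hc a a.2 b b.2)
  have hv' : (1 : ℝ) ≤ v := by exact_mod_cast hv
  have := pk_comm W.subtype hc' s (r := ((v : ℝ) - 1) / 2) (by linarith) fun a ha b hb hne => by
    refine pk_far hv ?_ fun e => hne (inv_mul_eq_one.mp (Subtype.ext e)).symm
    rw [← map_pow, (hc' b a).inv_left.mul_pow, inv_pow, hs a ha, hs b hb, inv_one, mul_one, map_one]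
  rw [show 2 * (((v : ℝ) - 1) / 2) + 1 = v by ring] at this
  exact_mod_cast this

/-- A commutative group on which the linear part is injective and of exponent `e` is finite. -/
theorem finite_of_pow (W : Subgroup (E ≃ᵢ E)) (hc : ∀ a ∈ W, ∀ b ∈ W, Commute a b) {e : ℕ}
    (he : 0 < e) (h : ∀ a ∈ W, a ^ e = 1) : Finite W := by
  by_contra hi
  have : Infinite W := not_finite_iff_infinite.mp hi
  obtain ⟨s, hs⟩ := Infinite.exists_subset_card_eq W (e ^ Module.finrank ℝ E + 1)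
  have := pk_torsion W hc he s fun x _ => Subtype.ext (h x x.2)
  omega

/-- The `v`-torsion of a commutative group of isometries has at most `v ^ dim` elements. -/
theorem card_torsion_le (W : Subgroup (E ≃ᵢ E)) (hc : ∀ a ∈ W, ∀ b ∈ W, Commute a b) (v : ℕ)
    (hv : 0 < v) : Nat.card {x : W // x ^ v = 1} ≤ v ^ Module.finrank ℝ E := by
  classical
  rcases finite_or_infinite {x : W // x ^ v = 1} with hf | hf
  · have := Fintype.ofFinite {x : W // x ^ v = 1}
    rw [Nat.card_eq_fintype_card, ← Finset.card_univ,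
      ← Finset.card_image_of_injective _ Subtype.val_injective]
    refine pk_torsion W hc hv _ fun x hx => ?_
    obtain ⟨y, -, rfl⟩ := Finset.mem_image.mp hx
    exact y.2
  · rw [Nat.card_eq_zero_of_infinite]
    exact Nat.zero_le _

omit [FiniteDimensional ℝ E] in
/-- Coset representatives are separated. -/
theorem pk_reps (Z D : Subgroup (E ≃ᵢ E)) [Finite D]
    (h : ∀ a ∈ D, ‖lin a - 1‖ < 1 / 2 → a ∈ Z) : ∃ s : Finset D, s.card = Z.relIndex D ∧
      ∀ a ∈ s, ∀ b ∈ s, a ≠ b → 1 ≤ 2 * ‖lin (D.subtype (b⁻¹ * a)) - 1‖ := by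
  classical
  have := Fintype.ofFinite (D ⧸ Z.subgroupOf D)
  refine ⟨Finset.univ.image (Quotient.out : D ⧸ Z.subgroupOf D → D), ?_, fun a ha b hb hne => ?_⟩
  · rw [Finset.card_image_of_injective _ Quotient.out_injective, Finset.card_univ,
      Subgroup.relIndex, Subgroup.index, Nat.card_eq_fintype_card]
    rfl
  · obtain ⟨p, -, rfl⟩ := Finset.mem_image.mp ha
    obtain ⟨q, -, rfl⟩ := Finset.mem_image.mp hb
    by_contra hlt
    have h1 : q.out⁻¹ * p.out ∈ Z.subgroupOf D :=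
      h _ (q.out⁻¹ * p.out).2 (by have := not_le.mp hlt; rw [Subgroup.coe_subtype] at this; linarith)
    have h2 := QuotientGroup.eq.mpr h1
    rw [QuotientGroup.out_eq', QuotientGroup.out_eq'] at h2
    exact hne (by rw [h2])

/-- A subgroup containing all small elements of a commutative group has index at most `5 ^ dim`. -/
theorem relIndex_le_comm (Z D : Subgroup (E ≃ᵢ E)) [Finite D]
    (hc : ∀ a ∈ D, ∀ b ∈ D, Commute a b) (h : ∀ a ∈ D, ‖lin a - 1‖ < 1 / 2 → a ∈ Z) :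
    Z.relIndex D ≤ 5 ^ Module.finrank ℝ E := by
  obtain ⟨s, hs, hsep⟩ := pk_reps Z D h
  have := pk_comm D.subtype (fun a b => Subtype.ext (hc a a.2 b b.2)) s (by norm_num) hsep
  rw [hs, show (2 : ℝ) * 2 + 1 = 5 by norm_num] at this
  exact_mod_cast this

/-- A subgroup containing all small elements has index at most `5 ^ (dim ^ 2)`. -/
theorem relIndex_le (Z D : Subgroup (E ≃ᵢ E)) [Finite D]
    (h : ∀ a ∈ D, ‖lin a - 1‖ < 1 / 2 → a ∈ Z) :
    Z.relIndex D ≤ 5 ^ (Module.finrank ℝ E ^ 2) := by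
  obtain ⟨s, hs, hsep⟩ := pk_reps Z D h
  have hd : Module.finrank ℝ (E →L[ℝ] E) = Module.finrank ℝ E ^ 2 := by
    rw [← LinearMap.toContinuousLinearMap.finrank_eq, Module.finrank_linearMap, pow_two]
  have := pk_fam s (fun a : D => lin (a : E ≃ᵢ E)) (r := 2) (by norm_num)
    (fun a _ => norm_lin_le _) fun a ha b hb hne => by
      have h1 := hsep a ha b hb hne
      have h2 := norm_lin_inv_mul (a : E ≃ᵢ E) b
      have h3 : D.subtype (b⁻¹ * a) = (b : E ≃ᵢ E)⁻¹ * a := rfl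
      rw [h3] at h1
      linarith
  rw [hs, hd, show (2 : ℝ) * 2 + 1 = 5 by norm_num] at this
  exact_mod_cast this

end Pool.Agent.Lib.MP_6d95fe_co.H35
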