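import Pool.Agent.Lib.MP_6d95fe_co.H35.Cor
import Pool.Agent.Lib.MP_6d95fe_co.H35.Ab
import Pool.Agent.Lib.MP_6d95fe_co.H35.Pack

/-! Small elements of a subgroup that is normal one block higher are global symmetries. -/

namespace Pool.Agent.Lib.MP_6d95fe_co.H35

open Pool.Agent.Lib.MP_6d95fe_co.Del

theorem closure_comm_pow {G : Type*} [Group G] {A : Set G} {e : ℕ}
    (hc : ∀ a ∈ A, ∀ b ∈ A, Commute a b) (he : ∀ a ∈ A, a ^ e = 1) :
    (∀ a ∈ Subgroup.closure A, ∀ b ∈ Subgroup.closure A, Commute a b) ∧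
      ∀ a ∈ Subgroup.closure A, a ^ e = 1 := by
  have h1 : ∀ b ∈ A, ∀ a ∈ Subgroup.closure A, Commute a b := fun b hb a ha => by
    induction ha using Subgroup.closure_induction with
    | mem x hx => exact hc x hx b hb
    | one => exact Commute.one_left b
    | mul x y _ _ hx hy => exact hx.mul_left hy
    | inv x _ hx => exact hx.inv_left
  have h2 : ∀ a ∈ Subgroup.closure A, ∀ b ∈ Subgroup.closure A, Commute a b := fun a ha b hb => by
    induction hb using Subgroup.closure_induction with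
    | mem x hx => exact h1 x hx a ha
    | one => exact Commute.one_right a
    | mul x y _ _ hx hy => exact hx.mul_right hy
    | inv x _ hx => exact hx.inv_right
  refine ⟨h2, fun a ha => ?_⟩
  induction ha using Subgroup.closure_induction with
  | mem x hx => exact he x hx
  | one => exact one_pow e
  | mul x y hx' hy' hx hy => rw [(h2 x hx' y hy').mul_pow, hx, hy, one_mul]
  | inv x _ hx => rw [inv_pow, hx, inv_one]

theorem conj_closure {G : Type*} [Group G] {A : Set G} {U : Subgroup G} (g : G)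
    (h : ∀ a ∈ A, g * a * g⁻¹ ∈ U) : ∀ a ∈ Subgroup.closure A, g * a * g⁻¹ ∈ U := by
  intro a ha
  induction ha using Subgroup.closure_induction with
  | mem x hx => exact h x hx
  | one => simp
  | mul x y _ _ hx hy =>
    have : g * (x * y) * g⁻¹ = (g * x * g⁻¹) * (g * y * g⁻¹) := by group
    rw [this]; exact U.mul_mem hx hy
  | inv x _ hx =>
    have : g * x⁻¹ * g⁻¹ = (g * x * g⁻¹)⁻¹ := by group
    rw [this]; exact U.inv_mem hx

theorem conj_sup {G : Type*} [Group G] {A B U : Subgroup G} (g : G)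
    (hA : ∀ a ∈ A, g * a * g⁻¹ ∈ U) (hB : ∀ a ∈ B, g * a * g⁻¹ ∈ U) :
    ∀ a ∈ A ⊔ B, g * a * g⁻¹ ∈ U := by
  rw [Subgroup.sup_eq_closure]
  exact conj_closure g fun a ha => ha.elim (hA a) (hB a)

theorem card_le_of_conj {G : Type*} [Group G] {A U : Subgroup G} [Finite U] (g : G)
    (h : ∀ a ∈ A, g * a * g⁻¹ ∈ U) : Nat.card A ≤ Nat.card U :=
  Nat.card_le_card_of_injective (fun a : A => (⟨g * a * g⁻¹, h a a.2⟩ : U)) fun a b e =>
    Subtype.ext (by simpa using e)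

variable {E : Type*} [NormedAddCommGroup E] [InnerProductSpace ℝ E]

/-- The linear part as an isometry. -/
noncomputable def lz : (E ≃ᵢ E) →* (E ≃ᵢ E) :=
  MonoidHom.mk' (fun g => g.toRealLinearIsometryEquiv.toIsometryEquiv) fun g h => by
    ext x
    exact congrArg (fun M : E →L[ℝ] E => M x) (map_mul lin g h)

theorem lz_apply (g : E ≃ᵢ E) (x : E) : lz g x = lin g x := rfl

theorem lin_lz (g : E ≃ᵢ E) : lin (lz g) = lin g := by
  ext x
  have := lin_sub (lz g) x 0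
  rw [sub_zero, lz_apply, lz_apply, map_zero, sub_zero] at this
  exact this

theorem norm_lin_inv (g : E ≃ᵢ E) : ‖lin g⁻¹ - 1‖ ≤ ‖lin g - 1‖ := by
  have := norm_lin_inv_mul 1 g
  rwa [mul_one, map_one, norm_sub_rev (1 : E →L[ℝ] E)] at this

theorem commute_of_lin {a b : E ≃ᵢ E} (ha : a 0 = 0) (hb : b 0 = 0)
    (h : Commute (lin a) (lin b)) : Commute a b := by
  have e : ∀ c : E ≃ᵢ E, c 0 = 0 → ∀ x, c x = lin c x := fun c hc x => by
    have := lin_sub c x 0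
    rw [sub_zero, hc, sub_zero] at this
    exact this.symm
  ext x
  rw [IsometryEquiv.mul_apply, IsometryEquiv.mul_apply, e a ha, e b hb, e b hb, e a ha]
  exact congrArg (fun M : E →L[ℝ] E => M x) h.eq

variable [FiniteDimensional ℝ E] {X : Type*} [MulAction (E ≃ᵢ E) X]

/-- The data of the global lemma. -/
structure Ctx (F : Fam (E ≃ᵢ E) X) where
  P0 : X
  h0 : P0 ∈ F.T
  D : Subgroup (E ≃ᵢ E)
  i : ℕ
  j : ℕ
  K : ℕ
  e : ℕ
  conn : F.Conn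
  hom : F.Hom K
  hD : D ≤ F.S j h0
  hn : ∀ g ∈ F.S i h0, ∀ d ∈ D, g * d * g⁻¹ ∈ D
  hij : i + 2 * Module.finrank ℝ E + 2 ≤ j
  hjK : j ≤ K
  disc : ∀ Y ∈ F.T, ∃ y : E, ∀ ρ : ℝ, {g | F.Good i g Y ∧ dist (g y) y ≤ ρ}.Finite
  e_pos : 0 < e
  he : ∀ d ∈ D, d ^ e = 1

namespace Ctx

variable {F : Fam (E ≃ᵢ E) X} (c : Ctx F)

/-- The small local symmetries at a tile. -/
def sg (R : X) : Set (E ≃ᵢ E) :=
  {x | ∃ γ : E ≃ᵢ E, γ • c.P0 = R ∧ F.Good c.i γ c.P0 ∧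
    ∃ d ∈ c.D, ‖lin d - 1‖ < 1 / 2 ∧ x = γ * d * γ⁻¹}

/-- The group generated by the small local symmetries of the tiles of a corona. -/
def Gm (s : ℕ) (Y : X) : Subgroup (E ≃ᵢ E) :=
  Subgroup.closure {x | ∃ R ∈ F.C s Y, x ∈ c.sg R}

variable {c}

omit [FiniteDimensional ℝ E] in
theorem sg_conj {R : X} {x δ : E ≃ᵢ E} (hx : x ∈ c.sg R) (hδ : F.Good c.i δ R) :
    δ * x * δ⁻¹ ∈ c.sg (δ • R) := by
  obtain ⟨γ, h1, h2, d, hd, hs, rfl⟩ := hx
  exact ⟨δ * γ, by rw [mul_smul, h1], h2.mul (by rw [h1]; exact hδ), d, hd, hs, by group⟩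

omit [FiniteDimensional ℝ E] in
theorem sg_inv {R : X} {x : E ≃ᵢ E} (hx : x ∈ c.sg R) : x⁻¹ ∈ c.sg R := by
  obtain ⟨γ, h1, h2, d, hd, hs, rfl⟩ := hx
  exact ⟨γ, h1, h2, d⁻¹, c.D.inv_mem hd, (norm_lin_inv d).trans_lt hs, by group⟩

omit [FiniteDimensional ℝ E] in
theorem sg_small {R : X} {x : E ≃ᵢ E} (hx : x ∈ c.sg R) : ‖lin x - 1‖ < 1 / 2 := by
  obtain ⟨γ, -, -, d, -, hs, rfl⟩ := hx
  exact (norm_lin_conj γ d).trans_lt hs

omit [FiniteDimensional ℝ E] in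
theorem sg_pow {R : X} {x : E ≃ᵢ E} (hx : x ∈ c.sg R) : x ^ c.e = 1 := by
  obtain ⟨γ, -, -, d, hd, -, rfl⟩ := hx
  rw [conj_pow, c.he d hd, mul_one, mul_inv_cancel]

omit [FiniteDimensional ℝ E] in
theorem mem_sg {d : E ≃ᵢ E} (hd : d ∈ c.D) (hs : ‖lin d - 1‖ < 1 / 2) : d ∈ c.sg c.P0 :=
  ⟨1, one_smul _ _, Fam.good_one _ c.h0, d, hd, hs, by group⟩

omit [FiniteDimensional ℝ E] in
theorem sg_eq {R : X} {x : E ≃ᵢ E} (hx : x ∈ c.sg R) : ∃ γ : E ≃ᵢ E, γ • c.P0 = R ∧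
    F.Good c.K γ c.P0 ∧ ∃ d ∈ c.D, ‖lin d - 1‖ < 1 / 2 ∧ x = γ * d * γ⁻¹ := by
  obtain ⟨γ, h1, h2, d, hd, hs, rfl⟩ := hx
  obtain ⟨β, h3, h4⟩ := c.hom c.P0 c.h0 _ h2.mem
  have hi : c.i ≤ c.K := by have := c.hij; have := c.hjK; omega
  have h5 : β⁻¹ * γ ∈ F.S c.i c.h0 :=
    ⟨by rw [mul_smul, ← h3, inv_smul_smul], h2.mul (by rw [← h3]; exact (h4.mono hi).inv)⟩
  exact ⟨β, h3.trans h1, h4, _, c.hn _ h5 d hd, (norm_lin_conj _ d).trans_lt hs, by group⟩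

omit [FiniteDimensional ℝ E] in
theorem sg_good {R : X} {x : E ≃ᵢ E} (hx : x ∈ c.sg R) : x • R = R ∧ F.Good c.j x R := by
  obtain ⟨γ, rfl, h2, d, hd, -, rfl⟩ := sg_eq hx
  have h3 := h2.mono c.hjK
  obtain ⟨h4, h5⟩ := c.hD hd
  refine ⟨by rw [mul_smul, mul_smul, inv_smul_smul, h4], h3.inv.mul ?_⟩
  rw [inv_smul_smul]
  exact h5.mul (by rw [h4]; exact h3)

omit [FiniteDimensional ℝ E] in
theorem Gm_good {s : ℕ} (hs : s ≤ Module.finrank ℝ E + 1) {Y : X} (hY : Y ∈ F.T) {γ : E ≃ᵢ E}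
    (h : γ ∈ c.Gm s Y) : F.Good (c.j - s) γ Y := by
  have hij := c.hij
  have step : ∀ γ x : E ≃ᵢ E, F.Good (c.j - s) γ Y → (∃ R ∈ F.C s Y, x ∈ c.sg R) →
      F.Good (c.j - s) (γ * x) Y := by
    rintro γ x hγ ⟨R, hR, hx⟩
    have h1 := sg_good (sg_conj hx (hγ.shift (s := s) (by omega) hR))
    have h2 : γ • Y ∈ F.C s (γ • R) := Fam.C_symm hγ.mem (hγ.1.map (by omega) hR)
    have h3 := hγ.mul (h1.2.shift (s := s) (i := c.j - s) (by omega) h2)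
    rwa [inv_mul_cancel_right] at h3
  induction h using Subgroup.closure_induction_right with
  | one => exact Fam.good_one _ hY
  | mul_right x _ y hy hx => exact step x y hx hy
  | mul_inv_cancel x _ y hy hx =>
    obtain ⟨R, hR, hy⟩ := hy
    exact step x _ hx ⟨R, hR, sg_inv hy⟩

omit [FiniteDimensional ℝ E] in
theorem Gm_mono {s t u : ℕ} (h : t + s ≤ u) {Y Q : X} (hQ : Q ∈ F.C t Y) :
    c.Gm s Q ≤ c.Gm u Y :=
  Subgroup.closure_mono fun _ ⟨R, hR, hx⟩ => ⟨R, Fam.C_mono h (Fam.C_trans hQ hR), hx⟩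

omit [FiniteDimensional ℝ E] in
theorem Gm_conj {s : ℕ} (hs : s ≤ Module.finrank ℝ E + 1) {Y : X} {δ : E ≃ᵢ E}
    (hδ : F.Good c.K δ Y) : ∀ x ∈ c.Gm s Y, δ * x * δ⁻¹ ∈ c.Gm s (δ • Y) := by
  have hij := c.hij
  have hjK := c.hjK
  exact conj_closure δ fun x ⟨R, hR, hx⟩ => Subgroup.subset_closure
    ⟨δ • R, hδ.1.map (by omega) hR, sg_conj hx (hδ.shift (s := s) (by omega) hR)⟩

theorem Gm_comm {s : ℕ} (hs : s ≤ Module.finrank ℝ E + 1) {Y : X} (hY : Y ∈ F.T) :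
    (∀ a ∈ c.Gm s Y, ∀ b ∈ c.Gm s Y, Commute a b) ∧ ∀ a ∈ c.Gm s Y, a ^ c.e = 1 := by
  have hij := c.hij
  obtain ⟨y, hy⟩ := c.disc Y hY
  refine closure_comm_pow (fun a ha b hb => ?_) fun a ⟨R, _, ha⟩ => sg_pow ha
  obtain ⟨z, hz⟩ := exists_fix c.e_pos (sg_pow hb.choose_spec.2)
  exact commute_of_discrete (c.Gm s Y) y
    (fun ρ => (hy ρ).subset fun g hg => ⟨(Gm_good hs hY hg.1).mono (by omega), hg.2⟩)
    (Subgroup.subset_closure ha) (Subgroup.subset_closure hb) (sg_small ha.choose_spec.2)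
    (sg_small hb.choose_spec.2) hz

/-- One commutative space of operators holds all linear parts. -/
theorem exists_alg (c : Ctx F) : ∃ A : Submodule ℝ (E →L[ℝ] E),
    (∀ a ∈ A, ∀ b ∈ A, Commute a b) ∧ (∀ x ∈ c.sg c.P0, lin x ∈ A) ∧
    ∀ Y ∈ F.T, ∀ γ : E ≃ᵢ E, F.Good c.K γ Y → ∀ a ∈ A, lin γ * a * lin γ⁻¹ ∈ A := by
  let φ : ℕ → X → Submodule ℝ (E →L[ℝ] E) := fun s Y =>
    Submodule.span ℝ (lin '' (c.Gm s Y : Set (E ≃ᵢ E)))
  let cj : (E ≃ᵢ E) → (E →L[ℝ] E) →ₗ[ℝ] (E →L[ℝ] E) := fun γ =>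
    (LinearMap.mulRight ℝ (lin γ⁻¹)).comp (LinearMap.mulLeft ℝ (lin γ))
  have hcj : ∀ γ a, cj γ a = lin γ * a * lin γ⁻¹ := fun _ _ => rfl
  have hmono : ∀ s t u, t + s ≤ u → ∀ Y, ∀ Q ∈ F.C t Y, φ s Q ≤ φ u Y := fun s t u h Y Q hQ =>
    Submodule.span_mono (Set.image_mono (Gm_mono h hQ))
  have hmap : ∀ s ≤ Module.finrank ℝ E + 1, ∀ Y γ, F.Good c.K γ Y →
      (φ s Y).map (cj γ) ≤ φ s (γ • Y) := fun s hs Y γ hγ => by
    rw [Submodule.map_span, Submodule.span_le]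
    rintro _ ⟨_, ⟨x, hx, rfl⟩, rfl⟩
    exact Submodule.subset_span ⟨_, Gm_conj hs hγ x hx, by rw [hcj, map_mul, map_mul]⟩
  have hle : ∀ s ≤ Module.finrank ℝ E + 1, ∀ Y ∈ F.T, ∀ Q ∈ F.T,
      Module.finrank ℝ (φ s Y) ≤ Module.finrank ℝ (φ s Q) := fun s hs Y hY Q hQ => by
    obtain ⟨γ, rfl, hγ⟩ := c.hom Y hY Q hQ
    have hinj : Function.Injective (cj γ) := fun a b h => by
      have := congrArg (fun M => lin γ⁻¹ * M * lin γ) h
      simpa only [hcj, ← mul_assoc, lin_inv_mul, one_mul, mul_assoc _ (lin γ⁻¹) (lin γ),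
        mul_one] using this
    rw [(Submodule.equivMapOfInjective _ hinj (φ s Y)).finrank_eq]
    exact Submodule.finrank_mono (hmap s hs Y γ hγ)
  obtain ⟨s, hs, h4⟩ := exists_stall (fun s => Module.finrank ℝ (φ s c.P0)) (Module.finrank ℝ E)
    (fun s _ => Submodule.finrank_mono (hmono s 0 (s + 1) (by omega) _ _ rfl))
    (finrank_span_le _ (Gm_comm le_rfl c.h0).1)
  have key := Fam.stall c.conn φ (fun A => Module.finrank ℝ A) c.h0
    (fun Y _ Q hQ => hmono s 1 (s + 1) (by omega) Y Q hQ)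
    (fun Y hY => le_antisymm (hle s (by omega) _ hY _ c.h0) (hle s (by omega) _ c.h0 _ hY))
    (fun Y hY => le_antisymm (hle _ (by omega) _ hY _ c.h0) (hle _ (by omega) _ c.h0 _ hY))
    (fun Y _ x hx h => Submodule.eq_of_le_of_finrank_eq hx h) h4
  refine ⟨φ s c.P0, fun a ha b hb => ?_, fun x hx => ?_, fun Y hY γ hγ a ha => ?_⟩
  · have hc := (Gm_comm (c := c) (s := s) (by omega) c.h0).1
    induction ha using Submodule.span_induction with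
    | mem a ha =>
      induction hb using Submodule.span_induction with
      | mem b hb =>
        obtain ⟨x, hx, rfl⟩ := ha
        obtain ⟨y, hy, rfl⟩ := hb
        exact (hc x hx y hy).map lin
      | zero => exact Commute.zero_right _
      | add x y _ _ hx hy => exact hx.add_right hy
      | smul r x _ hx => exact hx.smul_right r
    | zero => exact Commute.zero_left _
    | add x y _ _ hx hy => exact hx.add_left hy
    | smul r x _ hx => exact hx.smul_left r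
  · exact Submodule.subset_span ⟨x, Subgroup.subset_closure ⟨_, Fam.self_mem s _, hx⟩, rfl⟩
  · rw [← (key _ hγ.mem).1]
    exact hmap s (by omega) Y γ hγ ⟨a, by rw [(key Y hY).1]; exact ha, rfl⟩

/-- The linear parts of the group at level `dim E` do not depend on the tile. -/
theorem exists_lin (c : Ctx F) : ∃ A : Subgroup (E ≃ᵢ E), ∀ Y ∈ F.T,
    (c.Gm (Module.finrank ℝ E) Y).map lz = A := by
  obtain ⟨A0, hA1, hA2, hA3⟩ := c.exists_alg
  let p : Subgroup (E ≃ᵢ E) → Prop := fun U => (∀ x ∈ c.sg c.P0, lz x ∈ U) ∧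
    ∀ Y ∈ F.T, ∀ γ : E ≃ᵢ E, F.Good c.K γ Y → ∀ a ∈ U, lz γ * a * (lz γ)⁻¹ ∈ U
  obtain ⟨A, hA, hmin⟩ : ∃ A, p A ∧ ∀ U, p U → A ≤ U :=
    ⟨sInf {U | p U}, ⟨fun x hx => Subgroup.mem_sInf.2 fun U hU => hU.1 x hx,
      fun Y hY γ hγ a ha => Subgroup.mem_sInf.2 fun U hU =>
        hU.2 Y hY γ hγ a (Subgroup.mem_sInf.1 ha U hU)⟩, fun U hU => sInf_le hU⟩
  have hz : ∀ g : E ≃ᵢ E, lz g 0 = 0 := fun g => by rw [lz_apply, map_zero]
  have hU1 := closure_comm_pow (A := {w : E ≃ᵢ E | w 0 = 0 ∧ lin w ∈ A0 ∧ w ^ c.e = 1}) (e := c.e)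
    (fun a ha b hb => commute_of_lin ha.1 hb.1 (hA1 _ ha.2.1 _ hb.2.1)) fun a ha => ha.2.2
  have hAU := hmin (Subgroup.closure {w : E ≃ᵢ E | w 0 = 0 ∧ lin w ∈ A0 ∧ w ^ c.e = 1})
    ⟨fun x hx => Subgroup.subset_closure
      ⟨hz x, by rw [lin_lz]; exact hA2 x hx, by rw [← map_pow, sg_pow hx, map_one]⟩,
    fun Y hY γ hγ => conj_closure _ fun a ha => Subgroup.subset_closure
      ⟨by rw [← map_inv, IsometryEquiv.mul_apply, IsometryEquiv.mul_apply, hz, ha.1, hz],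
        by rw [← map_inv, map_mul, map_mul, lin_lz, lin_lz]; exact hA3 Y hY γ hγ _ ha.2.1,
        by rw [conj_pow, ha.2.2, mul_one, mul_inv_cancel]⟩⟩
  have hc : ∀ a ∈ A, ∀ b ∈ A, Commute a b := fun a ha b hb => hU1.1 a (hAU ha) b (hAU hb)
  have : Finite A := finite_of_pow A hc c.e_pos fun a ha => hU1.2 a (hAU ha)
  have hsub : ∀ s Y, (c.Gm s Y).map lz ≤ A := fun s Y => by
    rw [Gm, MonoidHom.map_closure, Subgroup.closure_le]
    rintro _ ⟨x, ⟨R, -, hx⟩, rfl⟩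
    obtain ⟨γ, -, h2, d, hd, hs, rfl⟩ := sg_eq hx
    rw [map_mul, map_mul, map_inv]
    exact hA.2 _ c.h0 γ h2 _ (hA.1 d (mem_sg hd hs))
  refine ⟨A, fun Y hY => le_antisymm (hsub _ Y) (le_of_sup_pow A _ hc (hsub _ Y) fun l hl => ?_)⟩
  let Pw : Subgroup (E ≃ᵢ E) := Subgroup.closure {x | ∃ a ∈ A, a ^ l = x}
  have hPw : Pw ≤ A := (Subgroup.closure_le _).2 fun _ ⟨a, ha, e⟩ => e ▸ A.pow_mem ha l
  let φ : ℕ → X → Subgroup (E ≃ᵢ E) := fun s Y => (c.Gm s Y).map lz ⊔ Pw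
  have hφ : ∀ s Y, φ s Y ≤ A := fun s Y => sup_le (hsub s Y) hPw
  have hfin : ∀ s Y, Finite (φ s Y) := fun s Y =>
    Finite.of_injective _ (Subgroup.inclusion_injective (hφ s Y))
  have hmono : ∀ s t u, t + s ≤ u → ∀ Y, ∀ Q ∈ F.C t Y, φ s Q ≤ φ u Y := fun s t u h Y Q hQ =>
    sup_le_sup_right (Subgroup.map_mono (Gm_mono h hQ)) _
  have hmap : ∀ s ≤ Module.finrank ℝ E + 1, ∀ Y ∈ F.T, ∀ γ, F.Good c.K γ Y →
      ∀ a ∈ φ s Y, lz γ * a * (lz γ)⁻¹ ∈ φ s (γ • Y) := fun s hs Y hY γ hγ =>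
    conj_sup _ (fun _ ⟨x, hx, e⟩ => Subgroup.mem_sup_left
        ⟨_, Gm_conj hs hγ x hx, by rw [map_mul, map_mul, map_inv, e]⟩)
      (conj_closure _ fun _ ⟨a, ha, e⟩ => Subgroup.mem_sup_right (Subgroup.subset_closure
        ⟨_, hA.2 Y hY γ hγ a ha, by rw [conj_pow, e]⟩))
  have hle : ∀ s ≤ Module.finrank ℝ E + 1, ∀ Y ∈ F.T, ∀ Q ∈ F.T,
      Nat.card (φ s Y) ≤ Nat.card (φ s Q) := fun s hs Y hY Q hQ => by
    obtain ⟨γ, rfl, hγ⟩ := c.hom Y hY Q hQ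
    have := hfin s (γ • Y)
    exact card_le_of_conj _ (hmap s hs Y hY γ hγ)
  obtain ⟨s, hs, h4⟩ := stall_pow A hc (Module.finrank ℝ E) l hl
    (card_torsion_le A hc l hl.pos) (fun s => φ s c.P0) (fun s _ => hφ s _)
    (fun s _ => hmono s 0 (s + 1) (by omega) _ _ rfl)
    fun a ha => Subgroup.mem_sup_right (Subgroup.subset_closure ⟨a, ha, rfl⟩)
  have key := Fam.stall c.conn φ (fun U => Nat.card U) c.h0
    (fun Y _ Q hQ => hmono s 1 (s + 1) (by omega) Y Q hQ)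
    (fun Y hY => le_antisymm (hle s (by omega) _ hY _ c.h0) (hle s (by omega) _ c.h0 _ hY))
    (fun Y hY => le_antisymm (hle _ (by omega) _ hY _ c.h0) (hle _ (by omega) _ c.h0 _ hY))
    (fun Y _ x hx h => by
      have := hfin (s + 1) Y
      exact Subgroup.eq_of_le_of_card_ge hx h.ge) h4
  have h5 : A ≤ φ s c.P0 := hmin _
    ⟨fun x hx => Subgroup.mem_sup_left
      ⟨x, Subgroup.subset_closure ⟨_, Fam.self_mem s _, hx⟩, rfl⟩, fun Q hQ γ hγ a ha => by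
      rw [← (key _ hγ.mem).1]
      exact hmap s (by omega) Q hQ γ hγ a (by rw [(key Q hQ).1]; exact ha)⟩
  rw [← (key Y hY).1] at h5
  exact h5.trans (hmono s 0 _ (by omega) Y Y rfl)

/-- The global lemma. -/
theorem global (c : Ctx F) {d : E ≃ᵢ E} (hd : d ∈ c.D) (hs : ‖lin d - 1‖ < 1 / 2) :
    d ∈ F.Sym := by
  obtain ⟨A, hA⟩ := c.exists_lin
  have key : ∀ Y ∈ F.T, d ∈ c.Gm (Module.finrank ℝ E) Y := by
    refine c.conn.ind c.h0 (Subgroup.subset_closure ⟨_, Fam.self_mem _ _, mem_sg hd hs⟩)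
      fun Y hY Q hQ h => ?_
    have h1 : lz d ∈ (c.Gm (Module.finrank ℝ E) Q).map lz := by
      rw [hA Q (Fam.mem_T hY hQ), ← hA Y hY]; exact ⟨d, h, rfl⟩
    obtain ⟨d', h2, h3⟩ := h1
    have h4 : d'⁻¹ * d ∈ c.Gm (Module.finrank ℝ E + 1) Y :=
      Subgroup.mul_mem _ (Subgroup.inv_mem _ (Gm_mono (by omega) hQ h2))
        (Gm_mono (t := 0) (by omega) rfl h)
    obtain ⟨z, hz⟩ := exists_fix c.e_pos ((Gm_comm le_rfl hY).2 _ h4)
    have h5 := eq_one_of_lin hz (by rw [map_mul, ← lin_lz d, ← h3, lin_lz, lin_inv_mul])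
    rw [← inv_mul_eq_one.mp h5]
    exact h2
  exact fun Y hY => ⟨(Gm_good (by omega) hY (key Y hY)).mem,
    (Gm_good (by omega) hY (Subgroup.inv_mem _ (key Y hY))).mem⟩

end Ctx

end Pool.Agent.Lib.MP_6d95fe_co.H35
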