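import Pool.Agent.Lib.MP_6d95fe_co.H35.Tile
import Pool.Agent.Lib.MP_6d95fe_co.H35.Centre

/-! Face-to-face tilings of the sphere by convex polytopes: either every tile lies in an open
hemisphere, or all tiles share a point. -/

namespace Pool.Agent.Lib.MP_6d95fe_co.H35

open scoped RealInnerProductSpace

/-- If all tiles share a point, condition (b) at any positive level is isohedrality. -/
theorem isohedral_of_common {X : Type*} [MetricSpace X] {T : Set (Set X)} {x : X}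
    (hx : ∀ P ∈ T, x ∈ P) {K : ℕ} (hb : CoronasCongruent T (K + 1)) : IsIsohedral T := by
  have all : ∀ P ∈ T, corona T (K + 1) P = T := fun P hP =>
    Set.Subset.antisymm (fun _ h => cor_mem h) fun Q hQ =>
      cor_cons hP ⟨x, hx P hP, hx Q hQ⟩ (cor_self hQ)
  intro P hP Q hQ
  obtain ⟨g, g1, g2⟩ := hb P hP Q hQ
  rw [all P hP, all Q hQ] at g2
  exact ⟨g, g2, g1⟩

variable {E : Type*} [NormedAddCommGroup E] [InnerProductSpace ℝ E]

theorem hemisphere_or_common {T : Set (Set (Metric.sphere (0 : E) 1))}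
    (conn : ∀ P ∈ T, ∀ Q ∈ T, ∃ k, Q ∈ corona T k P)
    (hp : ∀ P ∈ T, ∃ U : Finset E, ∀ p, p ∈ P ↔ ∀ u ∈ U, 0 ≤ ⟪u, (p : E)⟫)
    (hf : ∀ P ∈ T, ∀ Q ∈ T, (P ∩ Q).Nonempty → ∃ u : E, (∀ p ∈ P, 0 ≤ ⟪u, (p : E)⟫) ∧
      P ∩ Q = {p ∈ P | ⟪u, (p : E)⟫ = 0}) :
    (∀ P ∈ T, ∃ v : E, ∀ p ∈ P, 0 < ⟪v, (p : E)⟫) ∨ ∃ x, ∀ P ∈ T, x ∈ P := by
  by_cases h : ∃ P ∈ T, ∃ x ∈ P, -x ∈ P
  · obtain ⟨P, hP, x, h1, h2⟩ := h
    refine Or.inr ⟨x, fun Q hQ => ?_⟩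
    obtain ⟨k, hk⟩ := conn P hP Q hQ
    refine (cor_ind (p := fun A => x ∈ A ∧ -x ∈ A) ⟨h1, h2⟩ ?_ hk).1
    rintro A hA B hB hAB ⟨a1, a2⟩
    obtain ⟨u, u1, u2⟩ := hf A hA B hB hAB
    have b1 := u1 x a1
    have b2 := u1 _ a2
    have e : ⟪u, ((-x : Metric.sphere (0 : E) 1) : E)⟫ = -⟪u, (x : E)⟫ := by
      rw [coe_neg_sphere, inner_neg_right]
    exact ⟨(u2.ge ⟨a1, by linarith⟩).2, (u2.ge ⟨a2, by linarith⟩).2⟩
  · refine Or.inl fun P hP => ?_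
    obtain ⟨U, hU⟩ := hp P hP
    refine ⟨∑ u ∈ U, u, fun p hp => ?_⟩
    have hp' := (hU p).1 hp
    rw [sum_inner]
    refine (Finset.sum_nonneg hp').lt_of_ne fun e => h ⟨_, hP, p, hp, (hU _).2 fun u hu => ?_⟩
    rw [coe_neg_sphere, inner_neg_right, (Finset.sum_eq_zero_iff_of_nonneg hp').1 e.symm u hu,
      neg_zero]

/-- The sphere theorem for tiles in open hemispheres gives it for all face-to-face tilings by
convex polytopes, lunes included. -/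
theorem sphere_poly [FiniteDimensional ℝ E] (hE : 1 < Module.finrank ℝ E) {K : ℕ}
    {T : Set (Set (Metric.sphere (0 : E) 1))} (hT : IsTiling T)
    (hp : ∀ P ∈ T, ∃ U : Finset E, ∀ p, p ∈ P ↔ ∀ u ∈ U, 0 ≤ ⟪u, (p : E)⟫)
    (hf : ∀ P ∈ T, ∀ Q ∈ T, (P ∩ Q).Nonempty → ∃ u : E, (∀ p ∈ P, 0 ≤ ⟪u, (p : E)⟫) ∧
      P ∩ Q = {p ∈ P | ⟪u, (p : E)⟫ = 0})
    (hb : CoronasCongruent T (K + 1))
    (main : (∀ P ∈ T, ∃ v : E, ∀ p ∈ P, 0 < ⟪v, (p : E)⟫) → IsIsohedral T) : IsIsohedral T := by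
  have := FiniteDimensional.proper_real E
  have : ConnectedSpace (Metric.sphere (0 : E) 1) := isConnected_iff_connectedSpace.1
    (isConnected_sphere (Module.one_lt_rank_of_one_lt_finrank hE) 0 zero_le_one)
  exact (hemisphere_or_common (hT.conn fun P hP Q hQ => (hb P hP Q hQ).imp fun _ h => h.1)
    hp hf).elim main fun ⟨_, hx⟩ => isohedral_of_common hx hb

end Pool.Agent.Lib.MP_6d95fe_co.H35
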