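import Mathlib

/-! Two classes of families of subsets of the unit sphere. -/

namespace Pool.Agent.Lib.MP_6d95fe_co.H35

variable {E : Type*} [NormedAddCommGroup E] [InnerProductSpace ℝ E]

/-- Every member lies in an open hemisphere. -/
def InHemispheres (T : Set (Set (Metric.sphere (0 : E) 1))) : Prop :=
  ∀ P ∈ T, ∃ v : E, ∀ p ∈ P, 0 < inner ℝ v (p : E)

/-- Every member is a finite intersection of closed hemispheres, and two members that meet do so
in a face of the first: the part of it on a supporting hyperplane, or all of it (`u = 0`). -/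
def IsPolytopal (T : Set (Set (Metric.sphere (0 : E) 1))) : Prop :=
  (∀ P ∈ T, ∃ U : Finset E, ∀ p, p ∈ P ↔ ∀ u ∈ U, 0 ≤ inner ℝ u (p : E)) ∧
    ∀ P ∈ T, ∀ Q ∈ T, (P ∩ Q).Nonempty → ∃ u : E, (∀ p ∈ P, 0 ≤ inner ℝ u (p : E)) ∧
      ∀ p, p ∈ P ∩ Q ↔ p ∈ P ∧ inner ℝ u (p : E) = 0

end Pool.Agent.Lib.MP_6d95fe_co.H35
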